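import Mathlib

set_option autoImplicit false

/-!
# Compact polyhedra, p.l. maps, p.l. balls, elementary p.l. collapses and deformations
-/

namespace Pool.Agent.Helper31.GZ

open Set

section

variable {E F : Type*} [NormedAddCommGroup E] [NormedSpace ℝ E]
  [NormedAddCommGroup F] [NormedSpace ℝ F]

/-- A compact convex cell (polytope): the convex hull of a finite set of points. -/
def IsCell (C : Set E) : Prop := ∃ S : Set E, S.Finite ∧ C = convexHull ℝ S

/-- A compact polyhedron: a finite union of convex hulls of finite sets. -/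
def IsPolyhedron (P : Set E) : Prop :=
  ∃ 𝒞 : Set (Set E), 𝒞.Finite ∧ (∀ C ∈ 𝒞, IsCell C) ∧ P = ⋃₀ 𝒞

/-- `f` is piecewise linear on `P`: it is continuous on `P`, and `P` is a finite union of convex
hulls of finite sets on each of which `f` agrees with an affine map `x ↦ A x + b`. -/
def IsPLOn (f : E → F) (P : Set E) : Prop :=
  ContinuousOn f P ∧
    ∃ 𝒞 : Set (Set E), 𝒞.Finite ∧
      (∀ C ∈ 𝒞, IsCell C ∧ ∃ (A : E →ₗ[ℝ] F) (b : F), ∀ x ∈ C, f x = A x + b) ∧ P = ⋃₀ 𝒞

/-- `f` is a p.l. homeomorphism of `P` onto `Q`: a p.l. bijection from `P` onto `Q` whose inverse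
is p.l. as well. -/
def IsPLIso (f : E → F) (P : Set E) (Q : Set F) : Prop :=
  IsPLOn f P ∧ BijOn f P Q ∧ ∃ g : F → E, IsPLOn g Q ∧ ∀ x ∈ P, g (f x) = x

/-- `P` and `Q` are p.l. homeomorphic. -/
def PLHomeo (P : Set E) (Q : Set F) : Prop := ∃ f : E → F, IsPLIso f P Q

/-- `P` collapses to `Q` by one elementary p.l. collapse: `P = Q ∪ B` where `B` is a p.l. ball of
dimension `n + 1` (p.l. homeomorphic by `h` to the standard simplex of dimension `n + 1`) and
`Q ∩ B` is a p.l. ball of dimension `n` contained in the boundary of `B` (the points which `h`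
sends to points of the simplex having a zero barycentric coordinate). -/
def ElemCollapse (P Q : Set E) : Prop :=
  IsPolyhedron P ∧ IsPolyhedron Q ∧
    ∃ (n : ℕ) (B : Set E) (h : E → (Fin (n + 2) → ℝ)),
      IsPLIso h B (stdSimplex ℝ (Fin (n + 2))) ∧
      P = Q ∪ B ∧
      (∀ x ∈ Q ∩ B, ∃ i, h x i = 0) ∧
      PLHomeo (Q ∩ B) (stdSimplex ℝ (Fin (n + 1)))

/-- `P ↘ Q`: a finite sequence of elementary p.l. collapses leads from `P` to `Q`. -/
def Collapses (P Q : Set E) : Prop := Relation.ReflTransGen ElemCollapse P Q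

/-- `K` and `L` are related by a deformation (`K ↗↘ L`): a finite sequence of elementary collapses
and of elementary expansions (the inverse operation) leads from `K` to `L`. -/
def Deformation (K L : Set E) : Prop :=
  Relation.ReflTransGen (fun P Q => ElemCollapse P Q ∨ ElemCollapse Q P) K L

/-- `P` has dimension two: it is a finite union of simplices of dimension at most two (convex
hulls of at most three points), and it contains a nondegenerate triangle. -/
def IsTwoDimensional (P : Set E) : Prop :=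
  (∃ 𝒞 : Set (Set E), 𝒞.Finite ∧
    (∀ C ∈ 𝒞, ∃ S : Finset E, S.card ≤ 3 ∧ C = convexHull ℝ (S : Set E)) ∧ P = ⋃₀ 𝒞) ∧
  ∃ a b c : E, AffineIndependent ℝ ![a, b, c] ∧ convexHull ℝ {a, b, c} ⊆ P

end

end Pool.Agent.Helper31.GZ
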