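import Mathlib

set_option autoImplicit false

namespace Pool.Agent.Helper31.GZ

open Set

/-- inverse of a continuous injection on a compact set is continuous on the image -/
theorem continuousOn_invFunOn {X Y : Type*} [TopologicalSpace X] [TopologicalSpace Y] [T2Space Y]
    [Nonempty X] {C : Set X} {f : X → Y} (hC : IsCompact C) (hf : ContinuousOn f C)
    (hinj : InjOn f C) : ContinuousOn (Function.invFunOn f C) (f '' C) := by
  rw [continuousOn_iff_isClosed]
  intro t ht
  refine ⟨f '' (C ∩ t), ((hC.inter_right ht).image_of_continuousOn
    (hf.mono inter_subset_left)).isClosed, ?_⟩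
  ext y
  constructor
  · rintro ⟨h1, x, hx, rfl⟩
    refine ⟨⟨x, ⟨hx, ?_⟩, rfl⟩, ⟨x, hx, rfl⟩⟩
    have : Function.invFunOn f C (f x) = x := hinj.leftInvOn_invFunOn hx
    rw [mem_preimage, this] at h1
    exact h1
  · rintro ⟨⟨x, ⟨hx, hxt⟩, rfl⟩, h2⟩
    refine ⟨?_, h2⟩
    have : Function.invFunOn f C (f x) = x := hinj.leftInvOn_invFunOn hx
    rw [mem_preimage, this]
    exact hxt

/-- extension of a map from a finite union of intervals into a path connected set -/
theorem extend_intervals {X : Type*} [TopologicalSpace X] {Z : Set X} (hZ : IsPathConnected Z) :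
    ∀ (n : ℕ) (a b : Fin n → ℝ) (f : ℝ → X), ContinuousOn f (⋃ i, Icc (a i) (b i)) →
      MapsTo f (⋃ i, Icc (a i) (b i)) Z →
      ∃ F : ℝ → X, Continuous F ∧ (∀ t, F t ∈ Z) ∧ EqOn F f (⋃ i, Icc (a i) (b i)) := by
  intro n
  induction n with
  | zero =>
    intro a b f _ _
    obtain ⟨z, hz⟩ := hZ.nonempty
    exact ⟨fun _ => z, continuous_const, fun _ => hz, by
      intro x hx
      simp at hx⟩
  | succ n ih =>
    intro a b f hf hm
    obtain ⟨i, hi⟩ := Finite.exists_max b
    set a' : Fin n → ℝ := fun j => a (i.succAbove j) with ha'
    set b' : Fin n → ℝ := fun j => min (b (i.succAbove j)) (a i) with hb'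
    have hsub : (⋃ j, Icc (a' j) (b' j)) ⊆ ⋃ j, Icc (a j) (b j) := by
      intro x hx
      obtain ⟨j, hj⟩ := mem_iUnion.1 hx
      exact mem_iUnion.2 ⟨i.succAbove j, hj.1, hj.2.trans (min_le_left _ _)⟩
    have hcov : ∀ x ∈ ⋃ j, Icc (a j) (b j), x ∈ (⋃ j, Icc (a' j) (b' j)) ∨ x ∈ Icc (a i) (b i) ∨
        (b i < a i ∧ x ≤ b i) := by
      intro x hx
      obtain ⟨j, hj⟩ := mem_iUnion.1 hx
      by_cases hji : j = i
      · subst hji; exact Or.inr (Or.inl hj)
      · obtain ⟨k, rfl⟩ := Fin.exists_succAbove_eq hji
        by_cases hxa : x ≤ a i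
        · exact Or.inl (mem_iUnion.2 ⟨k, hj.1, le_min hj.2 hxa⟩)
        · exact Or.inr (Or.inl ⟨(not_le.1 hxa).le, hj.2.trans (hi _)⟩)
    obtain ⟨F', hF'c, hF'Z, hF'e⟩ := ih a' b' f (hf.mono hsub) (hm.mono_left hsub)
    by_cases hemp : b i < a i
    · refine ⟨F', hF'c, hF'Z, ?_⟩
      intro x hx
      obtain ⟨j, hj⟩ := mem_iUnion.1 hx
      by_cases hji : j = i
      · subst hji; exact absurd (hj.1.trans hj.2) (not_le.2 hemp)
      · obtain ⟨k, rfl⟩ := Fin.exists_succAbove_eq hji
        refine hF'e (mem_iUnion.2 ⟨k, hj.1, le_min hj.2 ?_⟩)
        exact (hj.2.trans (hi _)).trans hemp.le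
    · rw [not_lt] at hemp
      have hIsub : Icc (a i) (b i) ⊆ ⋃ j, Icc (a j) (b j) := fun x hx => mem_iUnion.2 ⟨i, hx⟩
      have hfI : ContinuousOn f (Icc (a i) (b i)) := hf.mono hIsub
      set g : ℝ → X := fun t => f (projIcc (a i) (b i) hemp t) with hg
      have hgc : Continuous g := by
        have h1 : Continuous (fun t => (Icc (a i) (b i)).domRestrict f (projIcc (a i) (b i) hemp t)) :=
          (continuousOn_iff_continuous_domRestrict.1 hfI).comp continuous_projIcc
        exact h1
      have hgZ : ∀ t, g t ∈ Z := fun t => hm (hIsub (projIcc (a i) (b i) hemp t).2)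
      have hge : EqOn g f (Icc (a i) (b i)) := by
        intro t ht
        simp only [hg, projIcc_of_mem hemp ht]
      have hga : g (a i) = f (a i) := hge ⟨le_rfl, hemp⟩
      set D : Set ℝ := ⋃ j, Icc (a' j) (b' j) with hD
      have hDle : ∀ x ∈ D, x ≤ a i := by
        intro x hx
        obtain ⟨j, hj⟩ := mem_iUnion.1 hx
        exact hj.2.trans (min_le_right _ _)
      have hDc : IsCompact D := isCompact_iUnion fun j => isCompact_Icc
      -- a point c ≤ a i with D ≤ c and (c < a i or F' (a i) = f (a i))
      have key : ∃ c ≤ a i, (∀ x ∈ D, x ≤ c) ∧ (c < a i ∨ F' (a i) = f (a i)) := by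
        by_cases haD : a i ∈ D
        · exact ⟨a i, le_rfl, hDle, Or.inr (hF'e haD)⟩
        · by_cases hne : D.Nonempty
          · obtain ⟨c, hcD, hcmax⟩ := hDc.exists_isGreatest hne
            refine ⟨c, hDle c hcD, hcmax, Or.inl (lt_of_le_of_ne (hDle c hcD) ?_)⟩
            rintro rfl
            exact haD hcD
          · rw [not_nonempty_iff_eq_empty] at hne
            exact ⟨a i - 1, by linarith, by rw [hne]; simp, Or.inl (by linarith)⟩
      obtain ⟨c, hca, hDc', hor⟩ := key
      rcases hor with hlt | heq
      · obtain ⟨γ, hγ⟩ := hZ.joinedIn (F' c) (hF'Z c) (g (a i)) (hgZ _)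
        set p : ℝ → X := fun t => γ.extend ((t - c) / (a i - c)) with hp
        have hpos : 0 < a i - c := by linarith
        have hpc : Continuous p := γ.continuous_extend.comp (by fun_prop)
        have hpZ : ∀ t, p t ∈ Z := by
          intro t
          have : p t ∈ range γ := by
            rw [← Path.extend_range γ]; exact ⟨_, rfl⟩
          obtain ⟨s, hs⟩ := this
          rw [← hs]; exact hγ s
        refine ⟨fun t => if t ≤ c then F' t else (if t ≤ a i then p t else g t), ?_, ?_, ?_⟩
        · refine Continuous.if_le hF'c (Continuous.if_le hpc hgc continuous_id continuous_const ?_)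
            continuous_id continuous_const ?_
          · intro x hx
            rw [hx]
            simp only [hp]
            rw [div_self hpos.ne', Path.extend_one]
          · intro x hx
            rw [hx, if_pos hca]
            simp only [hp, sub_self, zero_div, Path.extend_zero]
        · intro t
          dsimp only
          split_ifs
          · exact hF'Z t
          · exact hpZ t
          · exact hgZ t
        · intro x hx
          have hcase : x ∈ D ∨ x ∈ Icc (a i) (b i) := by
            rcases hcov x hx with h | h | h
            · exact Or.inl h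
            · exact Or.inr h
            · exact absurd hemp (not_le.2 h.1)
          rcases hcase with h | h
          · simp only [if_pos (hDc' x h)]
            exact hF'e h
          · have h1 : ¬ x ≤ c := not_le.2 (lt_of_lt_of_le hlt h.1)
            simp only [if_neg h1]
            by_cases h2 : x ≤ a i
            · have hxa : x = a i := le_antisymm h2 h.1
              subst hxa
              rw [if_pos le_rfl]
              simp only [hp]
              rw [div_self hpos.ne', Path.extend_one]
              exact hge h
            · rw [if_neg h2]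
              exact hge h
      · refine ⟨fun t => if t ≤ a i then F' t else g t, ?_, ?_, ?_⟩
        · refine Continuous.if_le hF'c hgc continuous_id continuous_const ?_
          intro x hx
          rw [hx, heq, hga]
        · intro t
          dsimp only
          split_ifs
          · exact hF'Z t
          · exact hgZ t
        · intro x hx
          have hcase : x ∈ D ∨ x ∈ Icc (a i) (b i) := by
            rcases hcov x hx with h | h | h
            · exact Or.inl h
            · exact Or.inr h
            · exact absurd hemp (not_le.2 h.1)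
          rcases hcase with h | h
          · simp only [if_pos (hDle x h)]
            exact hF'e h
          · by_cases h2 : x ≤ a i
            · have hxa : x = a i := le_antisymm h2 h.1
              subst hxa
              simp only [if_pos le_rfl]
              exact heq
            · simp only [if_neg h2]
              exact hge h

end Pool.Agent.Helper31.GZ
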