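import Mathlib
import Pool.Agent.Helper31.GZ.Defs
import Pool.Agent.Helper31.GZ.Interval

set_option autoImplicit false

namespace Pool.Agent.Helper31.GZ

open Set

section

variable {E F : Type*} [NormedAddCommGroup E] [NormedSpace ℝ E]
  [NormedAddCommGroup F] [NormedSpace ℝ F]

theorem IsCell.isCompact {C : Set E} (h : IsCell C) : IsCompact C := by
  obtain ⟨S, hS, rfl⟩ := h
  exact hS.isCompact_convexHull ℝ

theorem IsCell.convex {C : Set E} (h : IsCell C) : Convex ℝ C := by
  obtain ⟨S, hS, rfl⟩ := h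
  exact convex_convexHull ℝ S

theorem isCompact_sUnion_cells {𝒞 : Set (Set E)} (h1 : 𝒞.Finite) (h2 : ∀ C ∈ 𝒞, IsCell C) :
    IsCompact (⋃₀ 𝒞) := by
  rw [sUnion_eq_biUnion]
  exact h1.isCompact_biUnion (fun C hC => (h2 C hC).isCompact)

theorem IsPolyhedron.isCompact {P : Set E} (h : IsPolyhedron P) : IsCompact P := by
  obtain ⟨𝒞, h1, h2, rfl⟩ := h
  exact isCompact_sUnion_cells h1 h2

theorem IsPLOn.isCompact {f : E → F} {P : Set E} (h : IsPLOn f P) : IsCompact P := by
  obtain ⟨_, 𝒞, h1, h2, rfl⟩ := h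
  exact isCompact_sUnion_cells h1 (fun C hC => (h2 C hC).1)

/-- the identity of `P` is homotopic in `P` to a map into `Q ⊆ P` -/
def DefRet (P Q : Set E) : Prop :=
  ∃ (h : Q ⊆ P) (r : C(P, Q)), ContinuousMap.Homotopic (ContinuousMap.id P)
    ((⟨Set.inclusion h, continuous_inclusion h⟩ : C(Q, P)).comp r)

omit [NormedSpace ℝ E] in
theorem DefRet.refl (P : Set E) : DefRet P P :=
  ⟨Subset.rfl, ContinuousMap.id P, by
    have : ((⟨Set.inclusion (Subset.refl P), continuous_inclusion Subset.rfl⟩ : C(P, P)).comp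
        (ContinuousMap.id P)) = ContinuousMap.id P := by
      ext x; rfl
    rw [this]⟩

omit [NormedSpace ℝ E] in
theorem DefRet.trans {P Q R : Set E} (h1 : DefRet P Q) (h2 : DefRet Q R) : DefRet P R := by
  obtain ⟨a1, r1, H1⟩ := h1
  obtain ⟨a2, r2, H2⟩ := h2
  refine ⟨a2.trans a1, r2.comp r1, ?_⟩
  refine H1.trans ?_
  have h3 : ContinuousMap.Homotopic
      (((⟨Set.inclusion a1, continuous_inclusion a1⟩ : C(Q, P)).comp (ContinuousMap.id Q)).comp r1)
      (((⟨Set.inclusion a1, continuous_inclusion a1⟩ : C(Q, P)).comp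
        ((⟨Set.inclusion a2, continuous_inclusion a2⟩ : C(R, Q)).comp r2)).comp r1) :=
    ContinuousMap.Homotopic.comp (ContinuousMap.Homotopic.comp (ContinuousMap.Homotopic.refl _) H2)
      (ContinuousMap.Homotopic.refl _)
  have e1 : (((⟨Set.inclusion a1, continuous_inclusion a1⟩ : C(Q, P)).comp
      (ContinuousMap.id Q)).comp r1) =
      (⟨Set.inclusion a1, continuous_inclusion a1⟩ : C(Q, P)).comp r1 := by ext x; rfl
  have e2 : (((⟨Set.inclusion a1, continuous_inclusion a1⟩ : C(Q, P)).comp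
        ((⟨Set.inclusion a2, continuous_inclusion a2⟩ : C(R, Q)).comp r2)).comp r1) =
      (⟨Set.inclusion (a2.trans a1), continuous_inclusion (a2.trans a1)⟩ : C(R, P)).comp
        (r2.comp r1) := by ext x; rfl
  rw [e1, e2] at h3
  exact h3

end

/-- a retraction of the coordinate space onto the standard simplex -/
noncomputable def toSimplex (n : ℕ) (x : Fin (n + 1) → ℝ) : Fin (n + 1) → ℝ := fun i =>
  max (x i) 0 / max (∑ j, max (x j) 0) 1 + max (1 - ∑ j, max (x j) 0) 0 / (n + 1)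

theorem continuous_toSimplex (n : ℕ) : Continuous (toSimplex n) := by
  unfold toSimplex
  refine continuous_pi fun i => ?_
  refine Continuous.add ?_ (by fun_prop)
  refine Continuous.div (by fun_prop) (by fun_prop) (fun x => ?_)
  have : (1 : ℝ) ≤ max (∑ j, max (x j) 0) 1 := le_max_right _ _
  linarith

theorem toSimplex_mem (n : ℕ) (x : Fin (n + 1) → ℝ) : toSimplex n x ∈ stdSimplex ℝ (Fin (n + 1)) := by
  have h0 : (0 : ℝ) ≤ ∑ j, max (x j) 0 := Finset.sum_nonneg fun j _ => le_max_right _ _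
  constructor
  · intro i
    unfold toSimplex
    have h1 : (1 : ℝ) ≤ max (∑ j, max (x j) 0) 1 := le_max_right _ _
    have h2 : (0 : ℝ) ≤ max (x i) 0 := le_max_right _ _
    have h3 : (0 : ℝ) ≤ max (1 - ∑ j, max (x j) 0) 0 := le_max_right _ _
    positivity
  · unfold toSimplex
    rw [Finset.sum_add_distrib, ← Finset.sum_div]
    simp only [Finset.sum_const, Finset.card_univ, Fintype.card_fin, nsmul_eq_mul, Nat.cast_add,
      Nat.cast_one]
    have hn : ((n : ℝ) + 1) ≠ 0 := by positivity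
    rw [mul_div_cancel₀ _ hn]
    rcases le_total 1 (∑ j, max (x j) 0) with h | h
    · rw [max_eq_left h, max_eq_right (by linarith), div_self (by linarith)]
      ring
    · rw [max_eq_right h, max_eq_left (by linarith)]
      ring

theorem toSimplex_eq (n : ℕ) (x : Fin (n + 1) → ℝ) (hx : x ∈ stdSimplex ℝ (Fin (n + 1))) :
    toSimplex n x = x := by
  have h1 : ∑ j, max (x j) 0 = 1 := by
    rw [← hx.2]
    exact Finset.sum_congr rfl fun j _ => max_eq_left (hx.1 j)
  funext i
  unfold toSimplex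
  rw [h1, max_eq_left (hx.1 i)]
  simp

section

variable {E : Type*} [NormedAddCommGroup E] [NormedSpace ℝ E]

theorem ElemCollapse.defRet {P Q : Set E} (h : ElemCollapse P Q) : DefRet P Q := by
  obtain ⟨hP, hQ, n, B, h, ⟨hPL, hbij, -⟩, hPQ, -, k, hk, hkbij, -⟩ := h
  have hinj := hbij.injOn
  have him := hbij.image_eq
  have hkinj := hkbij.injOn
  have hkim := hkbij.image_eq
  have hBc : IsCompact B := hPL.isCompact
  have hQc : IsCompact Q := hQ.isCompact
  have hDc : IsCompact (Q ∩ B) := hQc.inter_right hBc.isClosed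
  have hQP : Q ⊆ P := by rw [hPQ]; exact subset_union_left
  have hne : (Q ∩ B).Nonempty := by
    have : (stdSimplex ℝ (Fin (n + 1))).Nonempty := ⟨toSimplex n 0, toSimplex_mem n 0⟩
    rw [← hkim] at this
    exact this.of_image
  obtain ⟨x0, hx0⟩ := hne
  have : Nonempty E := ⟨x0⟩
  -- inverses
  set hi := Function.invFunOn h B with hhi
  have hic : ContinuousOn hi (stdSimplex ℝ (Fin (n + 2))) := by
    rw [← him]; exact continuousOn_invFunOn hBc hPL.1 hinj
  have hil : ∀ x ∈ B, hi (h x) = x := fun x hx => hinj.leftInvOn_invFunOn hx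
  have hiB : ∀ y ∈ stdSimplex ℝ (Fin (n + 2)), hi y ∈ B := by
    intro y hy
    rw [← him] at hy
    obtain ⟨x, hx, rfl⟩ := hy
    rw [hil x hx]; exact hx
  set ki := Function.invFunOn k (Q ∩ B) with hki
  have kic : ContinuousOn ki (stdSimplex ℝ (Fin (n + 1))) := by
    rw [← hkim]; exact continuousOn_invFunOn hDc hk.1 hkinj
  have kil : ∀ x ∈ Q ∩ B, ki (k x) = x := fun x hx => hkinj.leftInvOn_invFunOn hx
  have kiD : ∀ y ∈ stdSimplex ℝ (Fin (n + 1)), ki y ∈ Q ∩ B := by
    intro y hy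
    rw [← hkim] at hy
    obtain ⟨x, hx, rfl⟩ := hy
    rw [kil x hx]; exact hx
  -- extension of k
  obtain ⟨K, hK⟩ := ContinuousMap.exists_restrict_eq hDc.isClosed
    (⟨(Q ∩ B).domRestrict k, continuousOn_iff_continuous_domRestrict.1 hk.1⟩ :
      C(↥(Q ∩ B), Fin (n + 1) → ℝ))
  have hKk : ∀ x ∈ Q ∩ B, K x = k x := by
    intro x hx
    have := congrArg (fun f => f ⟨x, hx⟩) hK
    simpa using this
  set ret : E → E := fun x => ki (toSimplex n (K x)) with hret
  have hretc : Continuous ret := by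
    rw [← continuousOn_univ]
    exact kic.comp ((continuous_toSimplex n).comp K.continuous).continuousOn
      (fun x _ => toSimplex_mem n _)
  have hretD : ∀ x, ret x ∈ Q ∩ B := fun x => kiD _ (toSimplex_mem n _)
  have hretid : ∀ x ∈ Q ∩ B, ret x = x := by
    intro x hx
    simp only [hret]
    rw [hKk x hx, toSimplex_eq n _ (by rw [← hkim]; exact ⟨x, hx, rfl⟩), kil x hx]
  -- the homotopy
  classical
  have hmix : ∀ t ∈ Icc (0 : ℝ) 1, ∀ x ∈ B,
      (1 - t) • h x + t • h (ret x) ∈ stdSimplex ℝ (Fin (n + 2)) := by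
    intro t ht x hx
    have h1 : h x ∈ stdSimplex ℝ (Fin (n + 2)) := by rw [← him]; exact ⟨x, hx, rfl⟩
    have h2 : h (ret x) ∈ stdSimplex ℝ (Fin (n + 2)) := by
      rw [← him]; exact ⟨_, (hretD x).2, rfl⟩
    exact convex_stdSimplex ℝ _ h1 h2 (by linarith [ht.2]) ht.1 (by ring)
  set G : ℝ × E → E := fun p => if p.2 ∈ B then hi ((1 - p.1) • h p.2 + p.1 • h (ret p.2))
    else p.2 with hG
  have hGB : ContinuousOn G (Icc (0 : ℝ) 1 ×ˢ B) := by
    have h1 : ContinuousOn (fun p : ℝ × E => hi ((1 - p.1) • h p.2 + p.1 • h (ret p.2)))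
        (Icc (0 : ℝ) 1 ×ˢ B) := by
      refine hic.comp ?_ (fun p hp => hmix p.1 hp.1 p.2 hp.2)
      have a1 : ContinuousOn (fun p : ℝ × E => h p.2) (Icc (0 : ℝ) 1 ×ˢ B) :=
        hPL.1.comp continuous_snd.continuousOn (fun p hp => hp.2)
      have a2 : ContinuousOn (fun p : ℝ × E => h (ret p.2)) (Icc (0 : ℝ) 1 ×ˢ B) :=
        hPL.1.comp (hretc.comp continuous_snd).continuousOn (fun p _ => (hretD p.2).2)
      exact ((continuous_const.sub continuous_fst).continuousOn.smul a1).add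
        (continuous_fst.continuousOn.smul a2)
    refine h1.congr ?_
    rintro ⟨t, x⟩ ⟨_, hx⟩
    exact if_pos hx
  have hGid : ∀ t, ∀ x ∈ Q, G (t, x) = x := by
    intro t x hx
    simp only [hG]
    split_ifs with hxB
    · rw [hretid x ⟨hx, hxB⟩, ← add_smul, sub_add_cancel, one_smul, hil x hxB]
    · rfl
  have hGQ : ContinuousOn G (Icc (0 : ℝ) 1 ×ˢ Q) := by
    refine continuous_snd.continuousOn.congr ?_
    rintro ⟨t, x⟩ ⟨_, hx⟩
    exact hGid t x hx
  have hGc : ContinuousOn G (Icc (0 : ℝ) 1 ×ˢ P) := by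
    have : Icc (0 : ℝ) 1 ×ˢ P = (Icc (0 : ℝ) 1 ×ˢ Q) ∪ (Icc (0 : ℝ) 1 ×ˢ B) := by
      rw [hPQ, prod_union]
    rw [this]
    exact hGQ.union_of_isClosed hGB (isClosed_Icc.prod hQc.isClosed)
      (isClosed_Icc.prod hBc.isClosed)
  have hGP : ∀ t ∈ Icc (0 : ℝ) 1, ∀ x ∈ P, G (t, x) ∈ P := by
    intro t ht x hx
    by_cases hxB : x ∈ B
    · simp only [hG, if_pos hxB]
      rw [hPQ]
      exact Or.inr (hiB _ (hmix t ht x hxB))
    · simp only [hG, if_neg hxB]; exact hx
  have hG0 : ∀ x ∈ P, G (0, x) = x := by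
    intro x hx
    simp only [hG]
    split_ifs with hxB
    · rw [sub_zero, one_smul, zero_smul, add_zero, hil x hxB]
    · rfl
  have hG1 : ∀ x ∈ P, G (1, x) ∈ Q := by
    intro x hx
    by_cases hxB : x ∈ B
    · simp only [hG, if_pos hxB]
      rw [sub_self, zero_smul, one_smul, zero_add, hil _ (hretD x).2]
      exact (hretD x).1
    · simp only [hG, if_neg hxB]
      rw [hPQ] at hx
      exact hx.resolve_right hxB
  have hGc' : Continuous (fun p : unitInterval × P =>
      (⟨G ((p.1 : ℝ), (p.2 : E)), hGP _ p.1.2 _ p.2.2⟩ : P)) := by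
    refine Continuous.subtype_mk ?_ _
    have h2 : Continuous (fun p : unitInterval × P => ((p.1 : ℝ), (p.2 : E))) :=
      (continuous_subtype_val.comp continuous_fst).prodMk
        (continuous_subtype_val.comp continuous_snd)
    exact hGc.comp_continuous h2 (fun p => ⟨p.1.2, p.2.2⟩)
  refine ⟨hQP, ⟨fun x => ⟨G (1, (x : E)), hG1 _ x.2⟩, ?_⟩,
    ⟨⟨⟨fun p => (⟨G ((p.1 : ℝ), (p.2 : E)), hGP _ p.1.2 _ p.2.2⟩ : P), hGc'⟩, ?_, ?_⟩⟩⟩
  · refine Continuous.subtype_mk ?_ _
    exact hGc.comp_continuous (continuous_const.prodMk continuous_subtype_val)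
      (fun p => ⟨⟨zero_le_one, le_rfl⟩, p.2⟩)
  · intro x
    apply Subtype.ext
    simpa using hG0 x x.2
  · intro x
    apply Subtype.ext
    simp

theorem Collapses.defRet {P Q : Set E} (h : Collapses P Q) : DefRet P Q := by
  induction h with
  | refl => exact DefRet.refl P
  | tail _ h2 ih => exact ih.trans h2.defRet

end

end Pool.Agent.Helper31.GZ
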