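import Mathlib
import Pool.Agent.Helper31.GZ.Brouwer
import Pool.Agent.Helper31.GZ.Interval

set_option autoImplicit false

namespace Pool.Agent.Helper31.GZ

open Set Metric

abbrev E3 : Type := EuclideanSpace ℝ (Fin 3)
abbrev S2 : Type := sphere (0 : E3) 1

theorem sphere_not_nullhomotopic : ¬ (ContinuousMap.id S2).Nullhomotopic := by
  rintro ⟨c, ⟨F⟩⟩
  set t : E3 → unitInterval := fun x => projIcc 0 1 zero_le_one (2 - 2 * ‖x‖) with ht
  have htc : Continuous t := continuous_projIcc.comp (by fun_prop)
  have hn : ∀ x : E3, x ≠ 0 → ‖x‖⁻¹ • x ∈ sphere (0 : E3) 1 := by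
    intro x hx
    rw [mem_sphere_zero_iff_norm, norm_smul, norm_inv, norm_norm,
      inv_mul_cancel₀ (norm_ne_zero_iff.2 hx)]
  set f : E3 → E3 := fun x => if h : x ≠ 0 then
    (max ‖x‖ 1) • ((F (t x, ⟨‖x‖⁻¹ • x, hn x h⟩) : S2) : E3) else (c : E3) with hf
  have hf0 : ∀ x : E3, ‖x‖ < 1 / 2 → f x = c := by
    intro x hx
    by_cases h : x ≠ 0
    · have h1 : t x = 1 := by
        simp only [ht]
        rw [projIcc_of_right_le _ (by linarith)]
        rfl
      simp only [hf, dif_pos h, h1]
      have h2 : F (1, (⟨‖x‖⁻¹ • x, hn x h⟩ : S2)) = c := by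
        rw [F.apply_one]; rfl
      rw [h2, max_eq_right (by linarith), one_smul]
    · simp only [hf, dif_neg h]
  have hfc : Continuous f := by
    rw [continuous_iff_continuousAt]
    intro x
    by_cases hx : x = 0
    · subst hx
      refine (continuousAt_const : ContinuousAt (fun _ : E3 => (c : E3)) 0).congr ?_
      filter_upwards [ball_mem_nhds (0 : E3) (by norm_num : (0 : ℝ) < 1 / 2)] with y hy
      exact (hf0 y (by simpa using hy)).symm
    · have hon : ContinuousOn f {y | y ≠ 0} := by
        rw [continuousOn_iff_continuous_domRestrict]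
        have : ({y : E3 | y ≠ 0}).domRestrict f = fun y : {y : E3 | y ≠ 0} =>
            (max ‖(y : E3)‖ 1) • ((F (t y, ⟨‖(y : E3)‖⁻¹ • (y : E3), hn y y.2⟩) : S2) : E3) := by
          funext y
          exact dif_pos y.2
        rw [this]
        have hnc : Continuous fun y : {y : E3 | y ≠ 0} =>
            (⟨‖(y : E3)‖⁻¹ • (y : E3), hn y y.2⟩ : S2) := by
          refine Continuous.subtype_mk ?_ _
          exact (continuous_subtype_val.norm.inv₀ (fun y => norm_ne_zero_iff.2 y.2)).smul
            continuous_subtype_val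
        exact ((continuous_subtype_val.norm).max continuous_const).smul
          (continuous_subtype_val.comp
            (F.continuous.comp ((htc.comp continuous_subtype_val).prodMk hnc)))
      exact (hon x hx).continuousAt (isOpen_ne.mem_nhds hx)
  obtain ⟨x, hx⟩ := Brouwer.exists_zero 3 f hfc 1 one_pos (by
    intro x hx
    have h : x ≠ 0 := by
      rintro rfl; norm_num at hx
    have h1 : t x = 0 := by
      simp only [ht]
      rw [projIcc_of_le_left _ (by linarith)]
      rfl
    simp only [hf, dif_pos h, h1]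
    have h2 : F (0, (⟨‖x‖⁻¹ • x, hn x h⟩ : S2)) = (⟨‖x‖⁻¹ • x, hn x h⟩ : S2) := by
      rw [F.apply_zero]; rfl
    rw [h2, max_eq_left hx, smul_smul, mul_inv_cancel₀ (by linarith), one_smul])
  by_cases h : x ≠ 0
  · simp only [hf, dif_pos h] at hx
    have h1 : ‖((F (t x, (⟨‖x‖⁻¹ • x, hn x h⟩ : S2)) : S2) : E3)‖ = 1 :=
      mem_sphere_zero_iff_norm.1 (F (t x, (⟨‖x‖⁻¹ • x, hn x h⟩ : S2)) : S2).2
    have h2 := congrArg norm hx
    rw [norm_smul, h1, norm_zero, mul_one, norm_eq_zero] at h2
    have := le_max_right ‖x‖ 1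
    rw [h2] at this
    linarith
  · simp only [hf, dif_neg h] at hx
    have h1 : ‖(c : E3)‖ = 1 := mem_sphere_zero_iff_norm.1 c.2
    rw [hx, norm_zero] at h1
    norm_num at h1

instance : Fact (Module.finrank ℝ E3 = 2 + 1) := ⟨by simp⟩

/-- straight line from `x` to `y` in the complement of `v`, in the stereographic chart -/
noncomputable def slide (v : S2) (t : ℝ) (x y : S2) : S2 :=
  (stereographic' 2 v).symm ((1 - t) • (stereographic' 2 v) x + t • (stereographic' 2 v) y)

theorem slide_self (v : S2) (t : ℝ) (x : S2) (hx : x ≠ v) : slide v t x x = x := by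
  unfold slide
  rw [← add_smul, sub_add_cancel, one_smul]
  exact (stereographic' 2 v).left_inv (by simpa using hx)

theorem slide_zero (v x y : S2) (hx : x ≠ v) : slide v 0 x y = x := by
  unfold slide
  rw [sub_zero, one_smul, zero_smul, add_zero]
  exact (stereographic' 2 v).left_inv (by simpa using hx)

theorem slide_one (v x y : S2) (hy : y ≠ v) : slide v 1 x y = y := by
  unfold slide
  rw [sub_self, one_smul, zero_smul, zero_add]
  exact (stereographic' 2 v).left_inv (by simpa using hy)

theorem continuousOn_slide {α : Type*} [TopologicalSpace α] {s : Set α} (v : S2) {t : α → ℝ}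
    {x y : α → S2} (ht : ContinuousOn t s) (hx : ContinuousOn x s) (hy : ContinuousOn y s)
    (hxv : ∀ a ∈ s, x a ≠ v) (hyv : ∀ a ∈ s, y a ≠ v) :
    ContinuousOn (fun a => slide v (t a) (x a) (y a)) s := by
  unfold slide
  have h1 : ContinuousOn (stereographic' 2 v).symm univ := by
    have := (stereographic' 2 v).symm.continuousOn
    simpa using this
  have h2 : ContinuousOn (stereographic' 2 v) {v}ᶜ := by
    have := (stereographic' 2 v).continuousOn
    simpa using this
  have h3 : ContinuousOn (fun a => (stereographic' 2 v) (x a)) s :=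
    h2.comp hx (fun a ha => hxv a ha)
  have h4 : ContinuousOn (fun a => (stereographic' 2 v) (y a)) s :=
    h2.comp hy (fun a ha => hyv a ha)
  exact h1.comp (((continuousOn_const.sub ht).smul h3).add (ht.smul h4)) (fun _ _ => mem_univ _)

theorem pathConnected_compl_pair (a b : S2) (hab : a ≠ b) : IsPathConnected ({a, b}ᶜ : Set S2) := by
  set e := stereographic' 2 a with he
  have h1 : IsPathConnected ({e b}ᶜ : Set (EuclideanSpace ℝ (Fin 2))) := by
    apply isPathConnected_compl_singleton_of_one_lt_rank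
    rw [← Module.finrank_eq_rank]
    simp
  have h2 : ({a, b}ᶜ : Set S2) = e.symm '' ({e b}ᶜ) := by
    ext x
    simp only [mem_compl_iff, mem_insert_iff, mem_singleton_iff, not_or, mem_image]
    constructor
    · rintro ⟨hxa, hxb⟩
      refine ⟨e x, ?_, e.left_inv (by simpa [he] using hxa)⟩
      intro h
      apply hxb
      have := e.injOn (by simpa [he] using hxa) (by simpa [he] using hab.symm) h
      exact this
    · rintro ⟨y, hy, rfl⟩
      have hy1 : y ∈ e.target := by simp [he]
      have hys : e.symm y ∈ e.source := e.map_target hy1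
      refine ⟨by simpa [he] using hys, ?_⟩
      intro h
      apply hy
      rw [← h, e.right_inv hy1]
  rw [h2]
  apply h1.image'
  have := e.symm.continuousOn
  exact this.mono (by intro x _; simp [he])

/-- A subset of the line does not separate the sphere (for finite unions of intervals). -/
theorem sphere_no_cut (A B : Set S2) (hA : IsClosed A) (hB : IsClosed B) (hAB : A ∪ B = univ)
    (Φ : S2 → ℝ) (hΦ : Continuous Φ) (hinj : InjOn Φ (A ∩ B)) (n : ℕ) (u w : Fin n → ℝ)
    (hD : Φ '' (A ∩ B) = ⋃ i, Icc (u i) (w i)) : A = univ ∨ B = univ := by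
  by_contra hcon
  rw [not_or] at hcon
  obtain ⟨⟨b, hb⟩, ⟨a, ha⟩⟩ := And.intro ((ne_univ_iff_exists_notMem A).1 hcon.1)
    ((ne_univ_iff_exists_notMem B).1 hcon.2)
  have haA : a ∈ A := by
    have : a ∈ A ∪ B := by rw [hAB]; trivial
    exact this.resolve_right ha
  have hab : a ≠ b := by rintro rfl; exact hb haA
  set C := A ∩ B with hC
  have hCc : IsCompact C := (hA.inter hB).isCompact
  have : Nonempty S2 := ⟨a⟩
  set f : ℝ → S2 := Function.invFunOn Φ C with hf
  have hfc : ContinuousOn f (Φ '' C) := continuousOn_invFunOn hCc hΦ.continuousOn hinj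
  have hfΦ : ∀ x ∈ C, f (Φ x) = x := fun x hx => hinj.leftInvOn_invFunOn hx
  have hCab : ∀ x ∈ C, x ∈ ({a, b}ᶜ : Set S2) := by
    intro x hx
    simp only [mem_compl_iff, mem_insert_iff, mem_singleton_iff, not_or]
    exact ⟨fun h => ha (h ▸ hx.2), fun h => hb (h ▸ hx.1)⟩
  obtain ⟨Γ, hΓc, hΓZ, hΓe⟩ := extend_intervals (pathConnected_compl_pair a b hab) n u w f
    (by rw [← hD]; exact hfc) (by
      rw [← hD]
      rintro y ⟨x, hx, rfl⟩
      rw [hfΦ x hx]
      exact hCab x hx)
  have hΓC : ∀ x ∈ C, Γ (Φ x) = x := by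
    intro x hx
    rw [hΓe (by rw [← hD]; exact ⟨x, hx, rfl⟩), hfΦ x hx]
  have hΓa : ∀ s, Γ s ≠ a := fun s h => hΓZ s (by simp [h])
  have hΓb : ∀ s, Γ s ≠ b := fun s h => hΓZ s (by simp [h])
  -- the homotopy
  classical
  set H : ℝ × S2 → S2 := fun p => if p.2 ∈ A then slide b p.1 p.2 (Γ (Φ p.2))
    else slide a p.1 p.2 (Γ (Φ p.2)) with hH
  have hHA : ContinuousOn H (univ ×ˢ A) := by
    have h1 : ContinuousOn (fun p : ℝ × S2 => slide b p.1 p.2 (Γ (Φ p.2))) (univ ×ˢ A) := by
      refine continuousOn_slide b continuous_fst.continuousOn continuous_snd.continuousOn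
        (hΓc.comp (hΦ.comp continuous_snd)).continuousOn ?_ (fun _ _ => hΓb _)
      rintro ⟨s, x⟩ ⟨_, hx⟩ h
      exact hb (h ▸ hx)
    refine h1.congr ?_
    rintro ⟨s, x⟩ ⟨_, hx⟩
    exact if_pos hx
  have hHB : ContinuousOn H (univ ×ˢ B) := by
    have h1 : ContinuousOn (fun p : ℝ × S2 => slide a p.1 p.2 (Γ (Φ p.2))) (univ ×ˢ B) := by
      refine continuousOn_slide a continuous_fst.continuousOn continuous_snd.continuousOn
        (hΓc.comp (hΦ.comp continuous_snd)).continuousOn ?_ (fun _ _ => hΓa _)
      rintro ⟨s, x⟩ ⟨_, hx⟩ h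
      exact ha (h ▸ hx)
    refine h1.congr ?_
    rintro ⟨s, x⟩ ⟨_, hx⟩
    by_cases hxA : x ∈ A
    · simp only [hH, if_pos hxA]
      have hxC : x ∈ C := ⟨hxA, hx⟩
      rw [hΓC x hxC, slide_self b s x (fun h => hb (h ▸ hxA)),
        slide_self a s x (fun h => ha (h ▸ hx))]
    · exact if_neg hxA
  have hHc : Continuous H := by
    rw [← continuousOn_univ]
    have : (univ : Set (ℝ × S2)) = (univ ×ˢ A) ∪ (univ ×ˢ B) := by
      rw [← prod_union, hAB, univ_prod_univ]
    rw [this]
    exact hHA.union_of_isClosed hHB (isClosed_univ.prod hA) (isClosed_univ.prod hB)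
  have hH0 : ∀ x, H (0, x) = x := by
    intro x
    simp only [hH]
    split_ifs with h
    · exact slide_zero b x _ (fun h' => hb (h' ▸ h))
    · have hxB : x ∈ B := by
        have : x ∈ A ∪ B := by rw [hAB]; trivial
        exact this.resolve_left h
      exact slide_zero a x _ (fun h' => ha (h' ▸ hxB))
  have hH1 : ∀ x, H (1, x) = Γ (Φ x) := by
    intro x
    simp only [hH]
    split_ifs with h
    · exact slide_one b x _ (hΓb _)
    · exact slide_one a x _ (hΓa _)
  apply sphere_not_nullhomotopic
  refine ⟨Γ 0, ?_⟩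
  set r : C(S2, S2) := ⟨fun x => Γ (Φ x), hΓc.comp hΦ⟩ with hr
  have h1 : ContinuousMap.Homotopic (ContinuousMap.id S2) r :=
    ⟨{ toFun := fun p => H ((p.1 : ℝ), p.2)
       continuous_toFun := hHc.comp
        ((continuous_subtype_val.comp continuous_fst).prodMk continuous_snd)
       map_zero_left := fun x => by simpa using hH0 x
       map_one_left := fun x => by simpa [hr] using hH1 x }⟩
  have h2 : ContinuousMap.Homotopic r (ContinuousMap.const S2 (Γ 0)) :=
    ⟨{ toFun := fun p => Γ ((1 - (p.1 : ℝ)) * Φ p.2)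
       continuous_toFun := hΓc.comp ((continuous_const.sub
        (continuous_subtype_val.comp continuous_fst)).mul (hΦ.comp continuous_snd))
       map_zero_left := fun x => by simp [hr]
       map_one_left := fun x => by simp }⟩
  exact h1.trans h2

end Pool.Agent.Helper31.GZ
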