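import Mathlib
import Pool.Agent.Helper31.GZ.Defs
import Pool.Agent.Helper31.GZ.Sphere

set_option autoImplicit false

namespace Pool.Agent.Helper31.GZ

open Set

/-- the tetrahedron with vertices `(α,0,0)`, `(β,0,0)`, `(m,1,0)`, `(m,0,1)` -/
def Tet (α m β : ℝ) : Set (Fin 3 → ℝ) :=
  {v | 0 ≤ v 1 ∧ 0 ≤ v 2 ∧ 0 ≤ v 0 - m * (v 1 + v 2) - α * (1 - (v 1 + v 2)) ∧
    0 ≤ β * (1 - (v 1 + v 2)) - v 0 + m * (v 1 + v 2)}

/-- the boundary of the tetrahedron `Tet α m β` -/
def Sph (α m β : ℝ) : Set (Fin 3 → ℝ) :=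
  {v | v ∈ Tet α m β ∧ (v 1 = 0 ∨ v 2 = 0 ∨ v 0 - m * (v 1 + v 2) - α * (1 - (v 1 + v 2)) = 0 ∨
    β * (1 - (v 1 + v 2)) - v 0 + m * (v 1 + v 2) = 0)}

/-- the vertices of `Tet α m β` -/
def vert (α m β : ℝ) : Fin 4 → (Fin 3 → ℝ) := ![![α, 0, 0], ![β, 0, 0], ![m, 1, 0], ![m, 0, 1]]

theorem comb_vert (α m β : ℝ) (w : Fin 4 → ℝ) : ∑ i, w i • vert α m β i =
    ![w 0 * α + w 1 * β + w 2 * m + w 3 * m, w 2, w 3] := by
  rw [Fin.sum_univ_four]
  funext j
  fin_cases j <;> simp [vert]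

/-- barycentric coordinates -/
noncomputable def bary (α m β : ℝ) (v : Fin 3 → ℝ) : Fin 4 → ℝ :=
  ![(β * (1 - (v 1 + v 2)) - v 0 + m * (v 1 + v 2)) / (β - α),
    (v 0 - m * (v 1 + v 2) - α * (1 - (v 1 + v 2))) / (β - α), v 1, v 2]

theorem comb_bary {α m β : ℝ} (h : α < β) (v : Fin 3 → ℝ) :
    ∑ i, bary α m β v i • vert α m β i = v := by
  have h' : β - α ≠ 0 := by linarith
  rw [comb_vert]
  funext j
  fin_cases j
  · simp [bary]
    field_simp
    ring
  · simp [bary]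
  · simp [bary]

theorem bary_sum {α m β : ℝ} (h : α < β) (v : Fin 3 → ℝ) : ∑ i, bary α m β v i = 1 := by
  have h' : β - α ≠ 0 := by linarith
  rw [Fin.sum_univ_four]
  simp [bary]
  field_simp
  ring

theorem mem_Tet_iff {α m β : ℝ} (h : α < β) (v : Fin 3 → ℝ) :
    v ∈ Tet α m β ↔ ∃ w ∈ stdSimplex ℝ (Fin 4), ∑ i, w i • vert α m β i = v := by
  have h' : 0 < β - α := by linarith
  constructor
  · rintro ⟨h1, h2, h3, h4⟩
    refine ⟨bary α m β v, ⟨?_, bary_sum h v⟩, comb_bary h v⟩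
    intro i
    fin_cases i
    · exact div_nonneg h4 h'.le
    · exact div_nonneg h3 h'.le
    · exact h1
    · exact h2
  · rintro ⟨w, ⟨hw, hs⟩, rfl⟩
    rw [comb_vert]
    rw [Fin.sum_univ_four] at hs
    have e : w 0 = 1 - w 1 - w 2 - w 3 := by linarith
    have e' : w 1 = 1 - w 0 - w 2 - w 3 := by linarith
    have h0 := mul_nonneg (hw 0) h'.le
    have h1 := mul_nonneg (hw 1) h'.le
    refine ⟨by simpa using hw 2, by simpa using hw 3, ?_, ?_⟩
    · simp only [Matrix.cons_val_zero, Matrix.cons_val_one, Matrix.cons_val]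
      rw [e]; nlinarith
    · simp only [Matrix.cons_val_zero, Matrix.cons_val_one, Matrix.cons_val]
      rw [e']; nlinarith

theorem Tet_eq_image {α m β : ℝ} (h : α < β) :
    Tet α m β = (fun w : Fin 4 → ℝ => ∑ i, w i • vert α m β i) '' stdSimplex ℝ (Fin 4) := by
  ext v
  rw [mem_Tet_iff h]
  rfl

theorem isCompact_Tet {α m β : ℝ} (h : α < β) : IsCompact (Tet α m β) := by
  rw [Tet_eq_image h]
  refine (isCompact_stdSimplex ℝ (Fin 4)).image ?_
  exact continuous_finsetSum _ fun i _ => (continuous_apply i).smul continuous_const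

theorem convex_Tet (α m β : ℝ) : Convex ℝ (Tet α m β) := by
  rintro v ⟨v1, v2, v3, v4⟩ w ⟨w1, w2, w3, w4⟩ a b ha hb hab
  have e : b = 1 - a := by linarith
  subst e
  refine ⟨?_, ?_, ?_, ?_⟩
  · simp only [Pi.add_apply, Pi.smul_apply, smul_eq_mul]
    nlinarith [mul_nonneg ha v1, mul_nonneg hb w1]
  · simp only [Pi.add_apply, Pi.smul_apply, smul_eq_mul]
    nlinarith [mul_nonneg ha v2, mul_nonneg hb w2]
  · simp only [Pi.add_apply, Pi.smul_apply, smul_eq_mul]
    nlinarith [mul_nonneg ha v3, mul_nonneg hb w3]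
  · simp only [Pi.add_apply, Pi.smul_apply, smul_eq_mul]
    nlinarith [mul_nonneg ha v4, mul_nonneg hb w4]

/-- the open tetrahedron -/
def Tet' (α m β : ℝ) : Set (Fin 3 → ℝ) :=
  {v | 0 < v 1 ∧ 0 < v 2 ∧ 0 < v 0 - m * (v 1 + v 2) - α * (1 - (v 1 + v 2)) ∧
    0 < β * (1 - (v 1 + v 2)) - v 0 + m * (v 1 + v 2)}

theorem isOpen_Tet' (α m β : ℝ) : IsOpen (Tet' α m β) := by
  unfold Tet'
  have : {v : Fin 3 → ℝ | 0 < v 1 ∧ 0 < v 2 ∧
      0 < v 0 - m * (v 1 + v 2) - α * (1 - (v 1 + v 2)) ∧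
      0 < β * (1 - (v 1 + v 2)) - v 0 + m * (v 1 + v 2)} =
      {v | 0 < v 1} ∩ ({v | 0 < v 2} ∩ ({v | 0 < v 0 - m * (v 1 + v 2) - α * (1 - (v 1 + v 2))} ∩
        {v | 0 < β * (1 - (v 1 + v 2)) - v 0 + m * (v 1 + v 2)})) := rfl
  rw [this]
  refine (isOpen_lt continuous_const (by fun_prop)).inter ((isOpen_lt continuous_const
    (by fun_prop)).inter ((isOpen_lt continuous_const (by fun_prop)).inter
    (isOpen_lt continuous_const (by fun_prop))))

theorem interior_Tet (α m β : ℝ) : interior (Tet α m β) = Tet' α m β := by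
  apply Subset.antisymm
  · intro v hv
    have key : ∀ i : Fin 3, ∃ δ : ℝ, 0 < δ ∧ (v + δ • Pi.single i (1 : ℝ)) ∈ Tet α m β ∧
        (v - δ • Pi.single i (1 : ℝ)) ∈ Tet α m β := by
      intro i
      have h1 : Continuous (fun s : ℝ => v + s • (Pi.single i (1 : ℝ) : Fin 3 → ℝ)) := by
        fun_prop
      have h2 : (fun s : ℝ => v + s • (Pi.single i (1 : ℝ) : Fin 3 → ℝ)) ⁻¹' interior (Tet α m β)
          ∈ nhds (0 : ℝ) := by
        apply h1.continuousAt.preimage_mem_nhds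
        simpa using isOpen_interior.mem_nhds hv
      obtain ⟨ε, hε, hb⟩ := Metric.mem_nhds_iff.1 h2
      refine ⟨ε / 2, by positivity, ?_, ?_⟩
      · exact interior_subset (hb (by
          rw [Metric.mem_ball, Real.dist_eq, sub_zero, abs_of_pos (by positivity)]; linarith))
      · have : (-(ε / 2)) ∈ Metric.ball (0 : ℝ) ε := by
          rw [Metric.mem_ball, Real.dist_eq, sub_zero, abs_neg, abs_of_pos (by positivity)]
          linarith
        have := interior_subset (hb this)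
        simpa [sub_eq_add_neg] using this
    obtain ⟨δ0, hδ0, p0, q0⟩ := key 0
    obtain ⟨δ1, hδ1, -, q1⟩ := key 1
    obtain ⟨δ2, hδ2, -, q2⟩ := key 2
    refine ⟨?_, ?_, ?_, ?_⟩
    · have := q1.1
      simp at this
      linarith
    · have := q2.2.1
      simp at this
      linarith
    · have := q0.2.2.1
      simp at this
      linarith
    · have := p0.2.2.2
      simp at this
      linarith
  · refine interior_maximal ?_ (isOpen_Tet' α m β)
    rintro v ⟨h1, h2, h3, h4⟩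
    exact ⟨h1.le, h2.le, h3.le, h4.le⟩

theorem frontier_Tet {α m β : ℝ} (h : α < β) : frontier (Tet α m β) = Sph α m β := by
  rw [(isCompact_Tet h).isClosed.frontier_eq, interior_Tet]
  ext v
  constructor
  · rintro ⟨hv, hn⟩
    refine ⟨hv, ?_⟩
    by_contra hcon
    push Not at hcon
    obtain ⟨a, b, c, d⟩ := hcon
    exact hn ⟨lt_of_le_of_ne hv.1 (Ne.symm a), lt_of_le_of_ne hv.2.1 (Ne.symm b),
      lt_of_le_of_ne hv.2.2.1 (Ne.symm c), lt_of_le_of_ne hv.2.2.2 (Ne.symm d)⟩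
  · rintro ⟨hv, hor⟩
    refine ⟨hv, ?_⟩
    rintro ⟨a, b, c, d⟩
    rcases hor with h | h | h | h
    · exact a.ne' h
    · exact b.ne' h
    · exact c.ne' h
    · exact d.ne' h

theorem Sph_homeo {α m β : ℝ} (h : α < β) : Nonempty (Sph α m β ≃ₜ S2) := by
  set e : (Fin 3 → ℝ) ≃ₜ E3 := (EuclideanSpace.equiv (Fin 3) ℝ).symm.toHomeomorph with he
  have hconv : Convex ℝ (e '' Tet α m β) :=
    (convex_Tet α m β).linear_image ((EuclideanSpace.equiv (Fin 3) ℝ).symm : (Fin 3 → ℝ) →ₗ[ℝ] E3)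
  have hint : (interior (e '' Tet α m β)).Nonempty := by
    rw [← e.image_interior, interior_Tet]
    refine Set.Nonempty.image _ ⟨![m * (1 / 2) + (α + β) / 2 * (1 / 2), 1 / 4, 1 / 4], ?_⟩
    refine ⟨by simp, by simp, ?_, ?_⟩
    · simp only [Matrix.cons_val_zero, Matrix.cons_val_one, Matrix.cons_val]
      nlinarith
    · simp only [Matrix.cons_val_zero, Matrix.cons_val_one, Matrix.cons_val]
      nlinarith
  have hbd : Bornology.IsBounded (e '' Tet α m β) :=
    ((isCompact_Tet h).image e.continuous).isBounded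
  obtain ⟨g, -, -, hg⟩ := exists_homeomorph_image_interior_closure_frontier_eq_unitBall hconv hint hbd
  rw [← e.image_frontier, frontier_Tet h, ← image_comp] at hg
  have h1 : Sph α m β ≃ₜ ((e.trans g) '' Sph α m β) := (e.trans g).image _
  have h2 : ((e.trans g) '' Sph α m β) = Metric.sphere (0 : E3) 1 := by
    rw [← hg]; rfl
  exact ⟨h1.trans (Homeomorph.setCongr h2)⟩

end Pool.Agent.Helper31.GZ
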