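import Mathlib
import Pool.Agent.Helper31.GZ.Defs
import Pool.Agent.Helper31.GZ.Sphere
import Pool.Agent.Helper31.GZ.Tetra
import Pool.Agent.Helper31.GZ.Collapse

set_option autoImplicit false

namespace Pool.Agent.Helper31.GZ

open Set

/-- parameters of a necklace of four tetrahedral spheres -/
structure Params where
  α : Fin 4 → ℝ
  m : Fin 4 → ℝ
  β : Fin 4 → ℝ
  hm1 : ∀ i, α i < m i
  hm2 : ∀ i, m i < β i
  h01 : β 0 ≤ α 1
  h12 : β 1 ≤ α 2
  h23 : β 2 ≤ α 3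

/-- point of the axis -/
def pt (c : ℝ) : Fin 3 → ℝ := ![c, 0, 0]

theorem continuous_pt : Continuous pt := by
  unfold pt
  refine continuous_pi fun i => ?_
  fin_cases i
  · exact continuous_id
  · exact continuous_const
  · exact continuous_const

/-- the necklace -/
def Neck (p : Params) : Set (Fin 3 → ℝ) :=
  (⋃ i, Sph (p.α i) (p.m i) (p.β i)) ∪ {v | v 1 = 0 ∧ v 2 = 0 ∧ p.α 0 ≤ v 0 ∧ v 0 ≤ p.β 3}

theorem Params.ab (p : Params) (i : Fin 4) : p.α i < p.β i := (p.hm1 i).trans (p.hm2 i)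

theorem Params.ordered (p : Params) : ∀ i j : Fin 4, i < j → p.β i ≤ p.α j := by
  have h0 := p.ab 0
  have h1 := p.ab 1
  have h2 := p.ab 2
  have h3 := p.ab 3
  have := p.h01
  have := p.h12
  have := p.h23
  intro i j hij
  fin_cases i <;> fin_cases j <;> simp at hij ⊢ <;> first | omega | linarith

theorem Sph_range {α m β : ℝ} (h1 : α < m) (h2 : m < β) {v : Fin 3 → ℝ} (hv : v ∈ Sph α m β) :
    α ≤ v 0 ∧ v 0 ≤ β := by
  obtain ⟨⟨a, b, c, d⟩, -⟩ := hv
  constructor <;> nlinarith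

theorem Sph_left {α m β : ℝ} (h1 : α < m) {v : Fin 3 → ℝ} (hv : v ∈ Sph α m β)
    (h : v 0 = α) : v = pt α := by
  obtain ⟨⟨a, b, c, d⟩, -⟩ := hv
  have hs : (m - α) * (v 1 + v 2) ≤ 0 := by rw [h] at c; linarith
  have hs' : v 1 + v 2 ≤ 0 := by
    by_contra hcon
    rw [not_le] at hcon
    have := mul_pos (sub_pos.2 h1) hcon
    linarith
  funext i
  fin_cases i
  · exact h
  · show v 1 = 0
    linarith
  · show v 2 = 0
    linarith

theorem Sph_right {α m β : ℝ} (h2 : m < β) {v : Fin 3 → ℝ} (hv : v ∈ Sph α m β)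
    (h : v 0 = β) : v = pt β := by
  obtain ⟨⟨a, b, c, d⟩, -⟩ := hv
  have hs : (β - m) * (v 1 + v 2) ≤ 0 := by rw [h] at d; linarith
  have hs' : v 1 + v 2 ≤ 0 := by
    by_contra hcon
    rw [not_le] at hcon
    have := mul_pos (sub_pos.2 h2) hcon
    linarith
  funext i
  fin_cases i
  · exact h
  · show v 1 = 0
    linarith
  · show v 2 = 0
    linarith

theorem pt_mem_Sph {α m β c : ℝ} (h1 : α ≤ c) (h2 : c ≤ β) : pt c ∈ Sph α m β := by
  refine ⟨⟨by simp [pt], by simp [pt], ?_, ?_⟩, Or.inl (by simp [pt])⟩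
  · simp [pt]; linarith
  · simp [pt]; linarith

theorem eq_pt {v : Fin 3 → ℝ} (h1 : v 1 = 0) (h2 : v 2 = 0) : v = pt (v 0) := by
  funext i
  fin_cases i
  · rfl
  · exact h1
  · exact h2

theorem Neck_slab (p : Params) (i : Fin 4) {v : Fin 3 → ℝ} (hv : v ∈ Neck p) (h1 : p.α i ≤ v 0)
    (h2 : v 0 ≤ p.β i) : v ∈ Sph (p.α i) (p.m i) (p.β i) := by
  rcases hv with hv | ⟨a, b, -, -⟩
  · obtain ⟨j, hj⟩ := mem_iUnion.1 hv
    have hr := Sph_range (p.hm1 j) (p.hm2 j) hj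
    rcases lt_trichotomy i j with hij | rfl | hij
    · have := p.ordered i j hij
      have e : v 0 = p.α j := by linarith
      rw [Sph_left (p.hm1 j) hj e, ← e]
      exact pt_mem_Sph h1 h2
    · exact hj
    · have := p.ordered j i hij
      have e : v 0 = p.β j := by linarith
      rw [Sph_right (p.hm2 j) hj e, ← e]
      exact pt_mem_Sph h1 h2
  · rw [eq_pt a b]
    exact pt_mem_Sph h1 h2

theorem Neck_left (p : Params) (i : Fin 4) {v : Fin 3 → ℝ} (hv : v ∈ Neck p)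
    (h : v 0 = p.α i) : v = pt (p.α i) :=
  Sph_left (p.hm1 i) (Neck_slab p i hv h.ge (by rw [h]; exact (p.ab i).le)) h

theorem Neck_right (p : Params) (i : Fin 4) {v : Fin 3 → ℝ} (hv : v ∈ Neck p)
    (h : v 0 = p.β i) : v = pt (p.β i) :=
  Sph_right (p.hm2 i) (Neck_slab p i hv (by rw [h]; exact (p.ab i).le) h.le) h

theorem Sph_subset_Neck (p : Params) (i : Fin 4) : Sph (p.α i) (p.m i) (p.β i) ⊆ Neck p :=
  fun _ hv => Or.inl (mem_iUnion.2 ⟨i, hv⟩)

theorem Neck_range (p : Params) {v : Fin 3 → ℝ} (hv : v ∈ Neck p) : p.α 0 ≤ v 0 ∧ v 0 ≤ p.β 3 := by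
  rcases hv with hv | ⟨-, -, a, b⟩
  · obtain ⟨j, hj⟩ := mem_iUnion.1 hv
    have hr := Sph_range (p.hm1 j) (p.hm2 j) hj
    have h1 : p.α 0 ≤ p.α j := by
      by_cases h : j = 0
      · rw [h]
      · have := p.ordered 0 j (Fin.pos_of_ne_zero h)
        linarith [p.ab 0]
    have h2 : p.β j ≤ p.β 3 := by
      by_cases h : j = 3
      · rw [h]
      · have := p.ordered j 3 (by omega)
        linarith [p.ab 3]
    constructor <;> linarith
  · exact ⟨a, b⟩

theorem pt_mem_Neck (p : Params) {c : ℝ} (h1 : p.α 0 ≤ c) (h2 : c ≤ p.β 3) : pt c ∈ Neck p :=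
  Or.inr ⟨by simp [pt], by simp [pt], by simpa [pt] using h1, by simpa [pt] using h2⟩

/-- the retraction of the necklace onto its `i`-th sphere -/
noncomputable def rho (p : Params) (i : Fin 4) (v : Fin 3 → ℝ) : Fin 3 → ℝ :=
  if v 0 ≤ p.α i then pt (p.α i) else if v 0 ≤ p.β i then v else pt (p.β i)

theorem rho_mem (p : Params) (i : Fin 4) {v : Fin 3 → ℝ} (hv : v ∈ Neck p) :
    rho p i v ∈ Sph (p.α i) (p.m i) (p.β i) := by
  unfold rho
  split_ifs with h1 h2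
  · exact pt_mem_Sph le_rfl (p.ab i).le
  · exact Neck_slab p i hv (not_le.1 h1).le h2
  · exact pt_mem_Sph (p.ab i).le le_rfl

theorem rho_id (p : Params) (i : Fin 4) {v : Fin 3 → ℝ} (hv : v ∈ Sph (p.α i) (p.m i) (p.β i)) :
    rho p i v = v := by
  have hr := Sph_range (p.hm1 i) (p.hm2 i) hv
  unfold rho
  split_ifs with h1
  · exact (Sph_left (p.hm1 i) hv (le_antisymm h1 hr.1)).symm
  · rfl
  · exact absurd hr.2 (by assumption)

theorem rho_low (p : Params) (i : Fin 4) {v : Fin 3 → ℝ} (h : v 0 ≤ p.α i) :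
    rho p i v = pt (p.α i) := if_pos h

theorem rho_high (p : Params) (i : Fin 4) {v : Fin 3 → ℝ} (hv : v ∈ Neck p) (h : p.β i ≤ v 0) :
    rho p i v = pt (p.β i) := by
  have h1 : ¬ v 0 ≤ p.α i := not_le.2 (lt_of_lt_of_le (p.ab i) h)
  unfold rho
  rw [if_neg h1]
  split_ifs with h2
  · exact Neck_right p i hv (le_antisymm h2 h)
  · rfl

theorem continuous_rho (p : Params) (i : Fin 4) : Continuous (fun v : Neck p => rho p i v) := by
  unfold rho
  have hc : Continuous (fun v : Neck p => (v : Fin 3 → ℝ) 0) :=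
    (continuous_apply 0).comp continuous_subtype_val
  refine Continuous.if_le continuous_const (Continuous.if_le continuous_subtype_val
    continuous_const hc continuous_const ?_) hc continuous_const ?_
  · intro v hv
    exact Neck_right p i v.2 hv
  · intro v hv
    rw [if_pos (by rw [hv]; exact (p.ab i).le)]
    exact (Neck_left p i v.2 hv).symm

/-! ### finite unions of intervals -/

theorem exists_Icc_of_compact_convex {s : Set ℝ} (h1 : IsCompact s) (h2 : Convex ℝ s) :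
    ∃ a b : ℝ, s = Icc a b := by
  rcases s.eq_empty_or_nonempty with rfl | hne
  · exact ⟨1, 0, by simp⟩
  · exact ⟨sInf s, sSup s, eq_Icc_of_connected_compact ⟨hne, h2.isPreconnected⟩ h1⟩

theorem exists_intervals {ι : Type*} [Finite ι] (s : ι → Set ℝ) (h1 : ∀ i, IsCompact (s i))
    (h2 : ∀ i, Convex ℝ (s i)) :
    ∃ (n : ℕ) (u w : Fin n → ℝ), (⋃ i, s i) = ⋃ i, Icc (u i) (w i) := by
  choose a b hab using fun i => exists_Icc_of_compact_convex (h1 i) (h2 i)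
  obtain ⟨n, ⟨e⟩⟩ := Finite.exists_equiv_fin ι
  refine ⟨n, fun i => a (e.symm i), fun i => b (e.symm i), ?_⟩
  ext x
  simp only [mem_iUnion]
  constructor
  · rintro ⟨i, hi⟩
    refine ⟨e i, ?_⟩
    rw [e.symm_apply_apply, ← hab]
    exact hi
  · rintro ⟨i, hi⟩
    refine ⟨e.symm i, ?_⟩
    rw [hab]
    exact hi

theorem pl_section {T Y : Set (Fin 3 → ℝ)} (hT : IsPolyhedron T) (hTY : T ⊆ Y)
    (g : (Fin 3 → ℝ) → (Fin 3 → ℝ) × ℝ) (hg : IsPLOn g Y) (c : ℝ) :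
    ∃ (n : ℕ) (u w : Fin n → ℝ), (fun y => (g y).2) '' {y | y ∈ T ∧ (g y).1 0 = c} =
      ⋃ i, Icc (u i) (w i) := by
  obtain ⟨𝒯, hTf, hTc, hTe⟩ := hT
  obtain ⟨-, 𝒞, hCf, hCc, hCe⟩ := hg
  have : Finite 𝒯 := hTf
  have : Finite 𝒞 := hCf
  set s : 𝒯 × 𝒞 → Set ℝ := fun q => (fun y => (g y).2) '' {y | y ∈ (q.1 : Set (Fin 3 → ℝ)) ∧
    y ∈ (q.2 : Set (Fin 3 → ℝ)) ∧ (g y).1 0 = c} with hs
  have hkey : ∀ q : 𝒯 × 𝒞, IsCompact (s q) ∧ Convex ℝ (s q) := by
    rintro ⟨⟨F, hF⟩, ⟨C, hC⟩⟩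
    obtain ⟨hCcell, A, b, hA⟩ := hCc C hC
    have hFcell := hTc F hF
    set φ : (Fin 3 → ℝ) →ᵃ[ℝ] (Fin 3 → ℝ) × ℝ := A.toAffineMap + AffineMap.const ℝ _ b with hφ
    have hφe : ∀ y, φ y = A y + b := fun y => rfl
    have hφc : Continuous φ := by
      have : (fun y => φ y) = fun y => A y + b := rfl
      have h : Continuous (fun y => A y + b) := by
        exact (LinearMap.continuous_of_finiteDimensional A).add continuous_const
      exact h
    set K : Set (Fin 3 → ℝ) := (F ∩ C) ∩ {y | (φ y).1 0 = c} with hK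
    have hKc : IsCompact K := (hFcell.isCompact.inter_right hCcell.isCompact.isClosed).inter_right
      (isClosed_eq ((continuous_apply 0).comp (continuous_fst.comp hφc)) continuous_const)
    have hKconv : Convex ℝ K := by
      refine (hFcell.convex.inter hCcell.convex).inter ?_
      intro x hx y hy a b' ha hb hab
      have hx' : (φ x).1 0 = c := hx
      have hy' : (φ y).1 0 = c := hy
      show (φ (a • x + b' • y)).1 0 = c
      rw [Convex.combo_affine_apply hab]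
      simp only [Prod.fst_add, Prod.smul_fst, Pi.add_apply, Pi.smul_apply, smul_eq_mul, hx', hy']
      rw [← add_mul, hab, one_mul]
    have hse : s ⟨⟨F, hF⟩, ⟨C, hC⟩⟩ = (fun y => (φ y).2) '' K := by
      ext t
      constructor
      · rintro ⟨y, ⟨h1, h2, h3⟩, rfl⟩
        refine ⟨y, ⟨⟨h1, h2⟩, ?_⟩, ?_⟩
        · show (φ y).1 0 = c
          rw [hφe, ← hA y h2]; exact h3
        · show (φ y).2 = (g y).2
          rw [hφe, ← hA y h2]
      · rintro ⟨y, ⟨⟨h1, h2⟩, h3⟩, rfl⟩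
        have h3' : (φ y).1 0 = c := h3
        rw [hφe, ← hA y h2] at h3'
        refine ⟨y, ⟨h1, h2, h3'⟩, ?_⟩
        show (g y).2 = (φ y).2
        rw [hφe, ← hA y h2]
    rw [hse]
    refine ⟨hKc.image (continuous_snd.comp hφc), ?_⟩
    have : (fun y => (φ y).2) '' K = ((LinearMap.snd ℝ (Fin 3 → ℝ) ℝ).toAffineMap.comp φ) '' K := rfl
    rw [this]
    exact hKconv.affine_image _
  obtain ⟨n, u, w, h⟩ := exists_intervals s (fun q => (hkey q).1) (fun q => (hkey q).2)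
  refine ⟨n, u, w, ?_⟩
  rw [← h]
  ext t
  simp only [mem_iUnion]
  constructor
  · rintro ⟨y, ⟨h1, h2⟩, rfl⟩
    have h3 := h1
    rw [hTe] at h3
    obtain ⟨F, hF, hyF⟩ := h3
    have h4 := hTY h1
    rw [hCe] at h4
    obtain ⟨C, hC, hyC⟩ := h4
    exact ⟨(⟨F, hF⟩, ⟨C, hC⟩), ⟨y, ⟨hyF, hyC, h2⟩, rfl⟩⟩
  · rintro ⟨⟨⟨F, hF⟩, ⟨C, hC⟩⟩, ⟨y, ⟨h1, h2, h3⟩, rfl⟩⟩
    refine ⟨y, ⟨?_, h3⟩, rfl⟩
    rw [hTe]
    exact ⟨F, hF, h1⟩

end Pool.Agent.Helper31.GZ
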