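import Mathlib
import Pool.Agent.Helper31.GZ.Defs
import Pool.Agent.Helper31.GZ.Interval
import Pool.Agent.Helper31.GZ.Collapse

set_option autoImplicit false

namespace Pool.Agent.Helper31.GZ

open Set

section

variable {E F : Type*} [NormedAddCommGroup E] [NormedSpace ℝ E]
  [NormedAddCommGroup F] [NormedSpace ℝ F]

/-- A linear map which is injective on a polytope has an affine inverse on the image. -/
theorem exists_affine_inverse {C : Set E} (hC : IsCell C) (A : E →ₗ[ℝ] F) (b : F)
    (hinj : ∀ x ∈ C, ∀ y ∈ C, A x + b = A y + b → x = y) :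
    ∃ (A' : F →ₗ[ℝ] E) (b' : E), ∀ x ∈ C, A' (A x + b) + b' = x := by
  classical
  obtain ⟨S, hS, rfl⟩ := hC
  obtain ⟨S, rfl⟩ := hS.exists_finset_coe
  rcases S.eq_empty_or_nonempty with rfl | hne
  · exact ⟨0, 0, by simp⟩
  obtain ⟨s0, hs0⟩ := hne
  set V : Submodule ℝ E := Submodule.span ℝ ((fun s => s - s0) '' (S : Set E)) with hV
  have hcard : (0 : ℝ) < S.card := by exact_mod_cast Finset.card_pos.2 ⟨s0, hs0⟩
  -- every point of the cell differs from `s0` by an element of `V`
  have hsub : ∀ x ∈ convexHull ℝ (S : Set E), x - s0 ∈ V := by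
    intro x hx
    have h1 : convexHull ℝ (S : Set E) ⊆ (fun x => x - s0) ⁻¹' (V : Set E) := by
      refine convexHull_min ?_ ?_
      · intro s hs
        exact Submodule.subset_span ⟨s, hs, rfl⟩
      · intro x hx y hy p q hp hq hpq
        show p • x + q • y - s0 ∈ V
        have : p • x + q • y - s0 = p • (x - s0) + q • (y - s0) := by
          have e : q = 1 - p := by linarith
          subst e
          module
        rw [this]
        exact V.add_mem (V.smul_mem p hx) (V.smul_mem q hy)
    exact h1 hx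
  -- the barycentre is an interior point of the cell relative to `V`
  set g : E := ∑ r ∈ S, (1 / (S.card : ℝ)) • r with hg
  have hconv := convex_convexHull ℝ (S : Set E)
  have hgen : ∀ s ∈ S, ∀ δ : ℝ, |δ| ≤ 1 / (S.card : ℝ) →
      g + δ • (s - s0) ∈ convexHull ℝ (S : Set E) := by
    intro s hs δ hδ
    have e : g + δ • (s - s0) = ∑ r ∈ S, ((1 / (S.card : ℝ)) + (if r = s then δ else 0) -
        (if r = s0 then δ else 0)) • r := by
      simp only [sub_smul, add_smul, ite_smul, zero_smul, Finset.sum_add_distrib,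
        Finset.sum_sub_distrib, Finset.sum_ite_eq', hs, hs0, if_true, smul_sub, hg]
      abel
    rw [e]
    refine hconv.sum_mem ?_ ?_ (fun r hr => subset_convexHull ℝ _ hr)
    · intro r hr
      have h1 := abs_le.1 hδ
      have h2 : (0 : ℝ) < 1 / S.card := by positivity
      split_ifs <;> linarith [h1.1, h1.2]
    · simp only [Finset.sum_add_distrib, Finset.sum_sub_distrib, Finset.sum_ite_eq', hs, hs0,
        if_true, Finset.sum_const, nsmul_eq_mul]
      field_simp
      ring
  have hopen : ∀ v ∈ V, ∃ ε : ℝ, 0 < ε ∧ ∀ δ : ℝ, |δ| ≤ ε →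
      g + δ • v ∈ convexHull ℝ (S : Set E) := by
    intro v hv
    rw [hV] at hv
    induction hv using Submodule.span_induction with
    | mem x hx =>
      obtain ⟨s, hs, rfl⟩ := hx
      exact ⟨1 / (S.card : ℝ), by positivity, hgen s hs⟩
    | zero =>
      refine ⟨1, one_pos, fun δ _ => ?_⟩
      have := hgen s0 hs0 0 (by simp)
      simpa using this
    | add x y _ _ hx hy =>
      obtain ⟨ε1, h1, h1'⟩ := hx
      obtain ⟨ε2, h2, h2'⟩ := hy
      refine ⟨min ε1 ε2 / 2, by positivity, fun δ hδ => ?_⟩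
      have h3 : |2 * δ| ≤ min ε1 ε2 := by
        rw [abs_mul, abs_two]; linarith
      have e : g + δ • (x + y) = (1 / 2 : ℝ) • (g + (2 * δ) • x) + (1 / 2 : ℝ) • (g + (2 * δ) • y) := by
        module
      rw [e]
      exact hconv (h1' _ (h3.trans (min_le_left _ _))) (h2' _ (h3.trans (min_le_right _ _)))
        (by norm_num) (by norm_num) (by norm_num)
    | smul c x _ hx =>
      obtain ⟨ε, h1, h1'⟩ := hx
      refine ⟨ε / (|c| + 1), by positivity, fun δ hδ => ?_⟩
      rw [smul_smul]
      refine h1' _ ?_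
      rw [abs_mul]
      rw [le_div_iff₀ (by positivity)] at hδ
      nlinarith [abs_nonneg δ, abs_nonneg c]
  -- injectivity of `A` on `V`
  have hker : ∀ v ∈ V, A v = 0 → v = 0 := by
    intro v hv hAv
    obtain ⟨ε, hε, h⟩ := hopen v hv
    have h1 := h ε (by rw [abs_of_pos hε])
    have h2 := h 0 (by rw [abs_zero]; exact hε.le)
    have h3 := hinj _ h1 _ h2 (by simp [hAv])
    have h4 : ε • v = 0 := by simpa using h3
    exact (smul_eq_zero.1 h4).resolve_left hε.ne'
  have hker' : LinearMap.ker (A.domRestrict V) = ⊥ := by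
    rw [LinearMap.ker_eq_bot']
    intro v hv
    exact Subtype.ext (hker v v.2 hv)
  obtain ⟨A₁, hA₁⟩ := LinearMap.exists_leftInverse_of_injective _ hker'
  refine ⟨V.subtype.comp A₁, s0 - (V.subtype.comp A₁) (A s0 + b), ?_⟩
  intro x hx
  have h1 := LinearMap.congr_fun hA₁ ⟨x - s0, hsub x hx⟩
  have h2 : (A.domRestrict V) ⟨x - s0, hsub x hx⟩ = A x - A s0 := by
    rw [LinearMap.domRestrict_apply, map_sub]
  rw [LinearMap.comp_apply, h2] at h1
  have h3 : (V.subtype.comp A₁) (A x - A s0) = x - s0 := by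
    rw [LinearMap.comp_apply, h1]; rfl
  have h4 : (V.subtype.comp A₁) (A x + b) - (V.subtype.comp A₁) (A s0 + b) = x - s0 := by
    rw [← map_sub, ← h3]
    congr 1
    abel
  rw [add_sub, ← sub_add_eq_add_sub, h4]
  abel

theorem IsCell.image_affine {C : Set E} (hC : IsCell C) (A : E →ₗ[ℝ] F) (b : F) :
    IsCell ((fun x => A x + b) '' C) := by
  obtain ⟨S, hS, rfl⟩ := hC
  refine ⟨(fun x => A x + b) '' S, hS.image _, ?_⟩
  have h := AffineMap.image_convexHull (A.toAffineMap + AffineMap.const ℝ E b) S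
  have e : ⇑(A.toAffineMap + AffineMap.const ℝ E b) = (fun x => A x + b) := by
    funext x; simp
  rwa [e] at h

/-- The inverse of an injective p.l. map is p.l. -/
theorem IsPLOn.inv [Nonempty E] {f : E → F} {P : Set E} (hf : IsPLOn f P) (hinj : InjOn f P) :
    IsPLOn (Function.invFunOn f P) (f '' P) := by
  have hPc := hf.isCompact
  obtain ⟨hc, 𝒞, hfin, hcell, hP⟩ := hf
  refine ⟨continuousOn_invFunOn hPc hc hinj, (fun C => f '' C) '' 𝒞, hfin.image _, ?_, ?_⟩
  · rintro _ ⟨C, hC, rfl⟩
    obtain ⟨h1, A, b, h2⟩ := hcell C hC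
    have hCP : C ⊆ P := by rw [hP]; exact subset_sUnion_of_mem hC
    have e : f '' C = (fun x => A x + b) '' C := image_congr h2
    refine ⟨?_, ?_⟩
    · show IsCell (f '' C)
      rw [e]; exact h1.image_affine A b
    · obtain ⟨A', b', h3⟩ := exists_affine_inverse h1 A b (by
        intro x hx y hy hxy
        rw [← h2 x hx, ← h2 y hy] at hxy
        exact hinj (hCP hx) (hCP hy) hxy)
      refine ⟨A', b', ?_⟩
      rintro _ ⟨x, hx, rfl⟩
      rw [hinj.leftInvOn_invFunOn (hCP hx), h2 x hx, h3 x hx]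
  · rw [sUnion_image, hP, sUnion_eq_biUnion, image_iUnion₂]

/-- A p.l. bijection is a p.l. homeomorphism. -/
theorem IsPLOn.isPLIso [Nonempty E] {f : E → F} {P : Set E} {Q : Set F} (hf : IsPLOn f P)
    (hinj : InjOn f P) (him : f '' P = Q) : IsPLIso f P Q := by
  refine ⟨hf, ⟨?_, hinj, ?_⟩, Function.invFunOn f P, ?_, ?_⟩
  · intro x hx
    rw [← him]; exact ⟨x, hx, rfl⟩
  · rw [← him]; exact Subset.rfl
  · rw [← him]; exact hf.inv hinj
  · intro x hx
    exact hinj.leftInvOn_invFunOn hx

end

end Pool.Agent.Helper31.GZ
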