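import Mathlib
import Pool.Agent.Helper31.GZ.Defs
import Pool.Agent.Helper31.GZ.Interval
import Pool.Agent.Helper31.GZ.PLInv

set_option autoImplicit false

namespace Pool.Agent.Helper31.GZ

open Set

section

variable {E : Type*} [NormedAddCommGroup E] [NormedSpace ℝ E]

theorem IsCell.isPolyhedron {C : Set E} (h : IsCell C) : IsPolyhedron C :=
  ⟨{C}, finite_singleton C, by rintro D rfl; exact h, by simp⟩

theorem IsPolyhedron.union {P Q : Set E} (hP : IsPolyhedron P) (hQ : IsPolyhedron Q) :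
    IsPolyhedron (P ∪ Q) := by
  obtain ⟨𝒞, h1, h2, rfl⟩ := hP
  obtain ⟨𝒟, h3, h4, rfl⟩ := hQ
  refine ⟨𝒞 ∪ 𝒟, h1.union h3, ?_, (sUnion_union 𝒞 𝒟).symm⟩
  rintro C (hC | hC)
  · exact h2 C hC
  · exact h4 C hC

/-- the face of the simplex spanned by `v` on which the coordinates in `I` vanish is a cell -/
theorem face_eq {k : ℕ} (v : Fin k → E) (I : Set (Fin k)) :
    (fun w : Fin k → ℝ => ∑ i, w i • v i) '' {w | w ∈ stdSimplex ℝ (Fin k) ∧ ∀ i ∈ I, w i = 0} =
      convexHull ℝ (v '' Iᶜ) := by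
  classical
  apply Subset.antisymm
  · rintro _ ⟨w, ⟨hw, hI⟩, rfl⟩
    have e : ∑ i, w i • v i = ∑ i ∈ Finset.univ.filter (fun i => i ∉ I), w i • v i := by
      rw [Finset.sum_filter]
      refine Finset.sum_congr rfl fun i _ => ?_
      by_cases h : i ∈ I
      · simp [h, hI i h]
      · simp [h]
    show ∑ i, w i • v i ∈ _
    rw [e]
    refine (convex_convexHull ℝ _).sum_mem (fun i _ => hw.1 i) ?_ ?_
    · rw [← hw.2, Finset.sum_filter]
      refine Finset.sum_congr rfl fun i _ => ?_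
      by_cases h : i ∈ I
      · simp [h, hI i h]
      · simp [h]
    · intro i hi
      exact subset_convexHull ℝ _ ⟨i, (Finset.mem_filter.1 hi).2, rfl⟩
  · refine convexHull_min ?_ ?_
    · rintro _ ⟨i, hi, rfl⟩
      refine ⟨Pi.single i 1, ⟨⟨?_, ?_⟩, ?_⟩, ?_⟩
      · intro j
        by_cases h : j = i
        · subst h; simp
        · simp [h]
      · simp
      · intro j hj
        have : j ≠ i := by rintro rfl; exact hi hj
        simp [this]
      · simp [Pi.single_apply]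
    · rintro _ ⟨w, ⟨hw, hI⟩, rfl⟩ _ ⟨w', ⟨hw', hI'⟩, rfl⟩ a b ha hb hab
      refine ⟨a • w + b • w', ⟨(convex_stdSimplex ℝ (Fin k)) hw hw' ha hb hab, ?_⟩, ?_⟩
      · intro i hi
        simp [hI i hi, hI' i hi]
      · simp only [Pi.add_apply, Pi.smul_apply, smul_eq_mul, add_smul, mul_smul,
          Finset.sum_add_distrib, Finset.smul_sum]

theorem isCell_face {k : ℕ} (v : Fin k → E) (I : Set (Fin k)) :
    IsCell ((fun w : Fin k → ℝ => ∑ i, w i • v i) ''
      {w | w ∈ stdSimplex ℝ (Fin k) ∧ ∀ i ∈ I, w i = 0}) :=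
  ⟨v '' Iᶜ, (toFinite _).image _, face_eq v I⟩

theorem isCell_simplex {k : ℕ} (v : Fin k → E) :
    IsCell ((fun w : Fin k → ℝ => ∑ i, w i • v i) '' stdSimplex ℝ (Fin k)) := by
  have h := isCell_face v ∅
  have e : {w : Fin k → ℝ | w ∈ stdSimplex ℝ (Fin k) ∧ ∀ i ∈ (∅ : Set (Fin k)), w i = 0} =
      stdSimplex ℝ (Fin k) := by
    ext w; simp
  rwa [e] at h

/-- the linear map used to flatten the union of the facets opposite to the vertices in `J` -/
noncomputable def kap {n : ℕ} (J : Finset (Fin (n + 1))) :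
    (Fin (n + 2) → ℝ) →ₗ[ℝ] (Fin (n + 1) → ℝ) where
  toFun w := fun i => w (Fin.castSucc i) + (if i ∈ J then w (Fin.last (n + 1)) / (J.card : ℝ) else 0)
  map_add' w w' := by
    funext i
    by_cases h : i ∈ J
    · simp only [h, if_true, Pi.add_apply]; ring
    · simp only [h, if_false, Pi.add_apply]; ring
  map_smul' c w := by
    funext i
    by_cases h : i ∈ J
    · simp only [h, if_true, Pi.smul_apply, smul_eq_mul, RingHom.id_apply]; ring
    · simp only [h, if_false, Pi.smul_apply, smul_eq_mul, RingHom.id_apply]; ring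

theorem kap_apply {n : ℕ} (J : Finset (Fin (n + 1))) (w : Fin (n + 2) → ℝ) (i : Fin (n + 1)) :
    kap J w i = w (Fin.castSucc i) + (if i ∈ J then w (Fin.last (n + 1)) / (J.card : ℝ) else 0) :=
  rfl

theorem kap_inj {n : ℕ} (J : Finset (Fin (n + 1))) (w w' : Fin (n + 2) → ℝ)
    (hw : w ∈ stdSimplex ℝ (Fin (n + 2))) (hw' : w' ∈ stdSimplex ℝ (Fin (n + 2)))
    (hj : ∃ j ∈ J, w (Fin.castSucc j) = 0) (hj' : ∃ j ∈ J, w' (Fin.castSucc j) = 0)
    (h : kap J w = kap J w') : w = w' := by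
  obtain ⟨j, hjJ, hj⟩ := hj
  obtain ⟨j', hjJ', hj'⟩ := hj'
  have hc : (0 : ℝ) < (J.card : ℝ) := by
    exact_mod_cast Finset.card_pos.2 ⟨j, hjJ⟩
  have e1 := congrFun h j
  have e2 := congrFun h j'
  rw [kap_apply, kap_apply, if_pos hjJ, if_pos hjJ] at e1
  rw [kap_apply, kap_apply, if_pos hjJ', if_pos hjJ'] at e2
  have p1 := hw'.1 (Fin.castSucc j)
  have p2 := hw.1 (Fin.castSucc j')
  have e3 : w (Fin.last (n + 1)) / (J.card : ℝ) = w' (Fin.last (n + 1)) / (J.card : ℝ) := by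
    linarith
  have e4 : w (Fin.last (n + 1)) = w' (Fin.last (n + 1)) := by
    field_simp at e3
    exact e3
  funext i
  refine Fin.lastCases e4 (fun i => ?_) i
  have e5 := congrFun h i
  rw [kap_apply, kap_apply, e4] at e5
  linarith

theorem kap_image {n : ℕ} (J : Finset (Fin (n + 1))) (hJ : J.Nonempty) :
    (kap J) '' {w | w ∈ stdSimplex ℝ (Fin (n + 2)) ∧ ∃ j ∈ J, w (Fin.castSucc j) = 0} =
      stdSimplex ℝ (Fin (n + 1)) := by
  have hc : (0 : ℝ) < (J.card : ℝ) := by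
    exact_mod_cast Finset.card_pos.2 hJ
  apply Subset.antisymm
  · rintro _ ⟨w, ⟨hw, -⟩, rfl⟩
    refine ⟨fun i => ?_, ?_⟩
    · rw [kap_apply]
      have h1 := hw.1 (Fin.castSucc i)
      have h2 := hw.1 (Fin.last (n + 1))
      split_ifs
      · positivity
      · linarith
    · have h1 : ∀ i, kap J w i = w (Fin.castSucc i) +
          (if i ∈ J then w (Fin.last (n + 1)) / (J.card : ℝ) else 0) := fun i => rfl
      rw [Finset.sum_congr rfl fun i _ => h1 i, Finset.sum_add_distrib, Finset.sum_ite_mem,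
        Finset.univ_inter, Finset.sum_const, nsmul_eq_mul]
      have h2 := hw.2
      rw [Fin.sum_univ_castSucc] at h2
      rw [mul_div_cancel₀ _ hc.ne']
      exact h2
  · intro μ hμ
    obtain ⟨j, hj, hmin⟩ := J.exists_min_image μ hJ
    refine ⟨Fin.snoc (fun i => μ i - (if i ∈ J then μ j else 0)) ((J.card : ℝ) * μ j),
      ⟨⟨?_, ?_⟩, j, hj, ?_⟩, ?_⟩
    · intro i
      refine Fin.lastCases ?_ (fun i => ?_) i
      · rw [Fin.snoc_last]
        exact mul_nonneg hc.le (hμ.1 j)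
      · rw [Fin.snoc_castSucc]
        split_ifs with h
        · exact sub_nonneg.2 (hmin i h)
        · simpa using hμ.1 i
    · rw [Fin.sum_univ_castSucc]
      simp only [Fin.snoc_castSucc, Fin.snoc_last]
      rw [Finset.sum_sub_distrib, Finset.sum_ite_mem, Finset.univ_inter, Finset.sum_const,
        nsmul_eq_mul, hμ.2]
      ring
    · rw [Fin.snoc_castSucc]
      simp [hj]
    · funext i
      rw [kap_apply, Fin.snoc_castSucc, Fin.snoc_last]
      split_ifs with h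
      · field_simp
        ring
      · ring

/-- The basic elementary collapse: `B` is a simplex, and it meets the rest `Q` in the union of
the facets opposite to the vertices with indices in the nonempty set `J`. -/
theorem elemCollapse_simplex {n : ℕ} (v : Fin (n + 2) → E)
    (hv : ∀ w w' : Fin (n + 2) → ℝ, ∑ i, w i = ∑ i, w' i → ∑ i, w i • v i = ∑ i, w' i • v i →
      w = w')
    (J : Finset (Fin (n + 1))) (hJ : J.Nonempty) (P Q : Set E) (hQ : IsPolyhedron Q)
    (hP : P = Q ∪ (fun w : Fin (n + 2) → ℝ => ∑ i, w i • v i) '' stdSimplex ℝ (Fin (n + 2)))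
    (hQB : ∀ w ∈ stdSimplex ℝ (Fin (n + 2)),
      (∑ i, w i • v i ∈ Q ↔ ∃ j ∈ J, w (Fin.castSucc j) = 0)) :
    ElemCollapse P Q := by
  classical
  -- affine coordinates
  set Φ : (Fin (n + 2) → ℝ) →ₗ[ℝ] (E × ℝ) :=
    (Fintype.linearCombination ℝ v).prod (∑ i, LinearMap.proj i) with hΦ
  have hΦ1 : ∀ w, Φ w = (∑ i, w i • v i, ∑ i, w i) := by
    intro w
    simp [hΦ, Fintype.linearCombination_apply]
  have hker : LinearMap.ker Φ = ⊥ := by
    rw [LinearMap.ker_eq_bot]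
    intro w w' h
    rw [hΦ1, hΦ1] at h
    exact hv w w' (Prod.ext_iff.1 h).2 (Prod.ext_iff.1 h).1
  obtain ⟨Ψ, hΨ⟩ := LinearMap.exists_leftInverse_of_injective Φ hker
  have hΨ1 : ∀ w, ∑ i, w i = 1 → Ψ (∑ i, w i • v i, 1) = w := by
    intro w hw
    have := LinearMap.congr_fun hΨ w
    rw [LinearMap.comp_apply, hΦ1, hw] at this
    exact this
  set B : Set E := (fun w : Fin (n + 2) → ℝ => ∑ i, w i • v i) '' stdSimplex ℝ (Fin (n + 2))
    with hB
  have hBcell : IsCell B := isCell_simplex v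
  set A : E →ₗ[ℝ] (Fin (n + 2) → ℝ) := Ψ.comp (LinearMap.inl ℝ E ℝ) with hA
  set b : Fin (n + 2) → ℝ := Ψ (0, 1) with hb
  have hAb : ∀ x, Ψ (x, 1) = A x + b := by
    intro x
    rw [hA, hb, LinearMap.comp_apply, LinearMap.inl_apply, ← map_add]
    simp
  set h : E → (Fin (n + 2) → ℝ) := fun x => Ψ (x, 1) with hh
  have hhv : ∀ w ∈ stdSimplex ℝ (Fin (n + 2)), h (∑ i, w i • v i) = w := fun w hw => hΨ1 w hw.2
  have hinj : InjOn h B := by
    rintro _ ⟨w, hw, rfl⟩ _ ⟨w', hw', rfl⟩ heq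
    have : w = w' := by
      rw [← hhv w hw, ← hhv w' hw']; exact heq
    rw [this]
  have himg : h '' B = stdSimplex ℝ (Fin (n + 2)) := by
    apply Subset.antisymm
    · rintro _ ⟨_, ⟨w, hw, rfl⟩, rfl⟩
      rw [show h ((fun w : Fin (n + 2) → ℝ => ∑ i, w i • v i) w) = w from hhv w hw]
      exact hw
    · intro w hw
      exact ⟨_, ⟨w, hw, rfl⟩, hhv w hw⟩
  -- continuity of `h` on `B`
  have hBc : IsCompact B := by
    obtain ⟨S, hS, hS'⟩ := hBcell
    rw [hS']
    exact hS.isCompact_convexHull ℝ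
  have hcont : ContinuousOn h B := by
    have h1 : IsCompact (stdSimplex ℝ (Fin (n + 2))) := isCompact_stdSimplex ℝ (Fin (n + 2))
    have h2 : ContinuousOn (fun w : Fin (n + 2) → ℝ => ∑ i, w i • v i)
        (stdSimplex ℝ (Fin (n + 2))) := by
      apply Continuous.continuousOn
      exact continuous_finsetSum _ fun i _ => (continuous_apply i).smul continuous_const
    have h3 : InjOn (fun w : Fin (n + 2) → ℝ => ∑ i, w i • v i)
        (stdSimplex ℝ (Fin (n + 2))) := by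
      intro w hw w' hw' heq
      rw [← hhv w hw, ← hhv w' hw']
      exact congrArg h heq
    have h4 := continuousOn_invFunOn h1 h2 h3
    refine h4.congr ?_
    rintro _ ⟨w, hw, rfl⟩
    rw [h3.leftInvOn_invFunOn hw]
    exact hhv w hw
  have hPLh : IsPLOn h B := by
    refine ⟨hcont, {B}, finite_singleton B, ?_, by simp⟩
    rintro C rfl
    exact ⟨hBcell, A, b, fun x _ => hAb x⟩
  have hQBeq : Q ∩ B = (fun w : Fin (n + 2) → ℝ => ∑ i, w i • v i) ''
      {w | w ∈ stdSimplex ℝ (Fin (n + 2)) ∧ ∃ j ∈ J, w (Fin.castSucc j) = 0} := by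
    apply Subset.antisymm
    · rintro _ ⟨hxQ, w, hw, rfl⟩
      exact ⟨w, ⟨hw, (hQB w hw).1 hxQ⟩, rfl⟩
    · rintro _ ⟨w, ⟨hw, hj⟩, rfl⟩
      exact ⟨(hQB w hw).2 hj, w, hw, rfl⟩
  refine ⟨?_, hQ, n, B, h, hPLh.isPLIso hinj himg, hP, ?_, ?_⟩
  · rw [hP]
    exact hQ.union hBcell.isPolyhedron
  · rw [hQBeq]
    rintro _ ⟨w, ⟨hw, j, -, hj⟩, rfl⟩
    refine ⟨Fin.castSucc j, ?_⟩
    rw [show h ((fun w : Fin (n + 2) → ℝ => ∑ i, w i • v i) w) = w from hhv w hw]
    exact hj
  · refine ⟨fun x => kap J (h x), IsPLOn.isPLIso ⟨?_, ?_⟩ ?_ ?_⟩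
    · have h1 : Continuous (kap J) := LinearMap.continuous_of_finiteDimensional _
      exact h1.comp_continuousOn (hcont.mono inter_subset_right)
    · refine ⟨(fun j : Fin (n + 1) => (fun w : Fin (n + 2) → ℝ => ∑ i, w i • v i) ''
        {w | w ∈ stdSimplex ℝ (Fin (n + 2)) ∧ ∀ i ∈ ({Fin.castSucc j} : Set (Fin (n + 2))),
          w i = 0}) '' (J : Set (Fin (n + 1))), (J.finite_toSet).image _, ?_, ?_⟩
      · rintro _ ⟨j, hj, rfl⟩
        refine ⟨isCell_face v _, (kap J).comp A, kap J b, ?_⟩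
        intro x _
        show kap J (Ψ (x, 1)) = _
        rw [hAb, map_add]
        rfl
      · rw [hQBeq]
        ext x
        constructor
        · rintro ⟨w, ⟨hw, j, hj, hj0⟩, rfl⟩
          refine mem_sUnion.2 ⟨_, ⟨j, hj, rfl⟩, w, ⟨hw, ?_⟩, rfl⟩
          rintro i rfl
          exact hj0
        · intro hx
          obtain ⟨_, ⟨j, hj, rfl⟩, w, ⟨hw, hw0⟩, rfl⟩ := mem_sUnion.1 hx
          exact ⟨w, ⟨hw, j, hj, hw0 _ rfl⟩, rfl⟩
    · rw [hQBeq]
      rintro _ ⟨w, ⟨hw, hj⟩, rfl⟩ _ ⟨w', ⟨hw', hj'⟩, rfl⟩ heq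
      have e : kap J w = kap J w' := by
        rw [← hhv w hw, ← hhv w' hw']; exact heq
      rw [kap_inj J w w' hw hw' hj hj' e]
    · rw [hQBeq, ← kap_image J hJ, image_image]
      apply image_congr
      rintro w ⟨hw, -⟩
      rw [hhv w hw]

end

end Pool.Agent.Helper31.GZ
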