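import Mathlib
import Pool.Agent.Helper31.GZ.Defs
import Pool.Agent.Helper31.GZ.Simplex
import Pool.Agent.Helper31.GZ.Tetra
import Pool.Agent.Helper31.GZ.Neck

set_option autoImplicit false

namespace Pool.Agent.Helper31.GZ

open Set

theorem bary_comb {α m β : ℝ} (h : α < β) (w : Fin 4 → ℝ) (hw : ∑ i, w i = 1) :
    bary α m β (∑ i, w i • vert α m β i) = w := by
  have h' : β - α ≠ 0 := by linarith
  rw [comb_vert]
  rw [Fin.sum_univ_four] at hw
  have e : w 0 = 1 - w 1 - w 2 - w 3 := by linarith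
  funext j
  fin_cases j
  · simp [bary]
    rw [div_eq_iff h', e]
    ring
  · simp [bary]
    rw [div_eq_iff h', e]
    ring
  · simp [bary]
  · simp [bary]

theorem facet_eq {α m β : ℝ} (h : α < β) (i : Fin 4) :
    {x | x ∈ Tet α m β ∧ bary α m β x i = 0} =
      (fun w : Fin 4 → ℝ => ∑ i, w i • vert α m β i) ''
        {w | w ∈ stdSimplex ℝ (Fin 4) ∧ ∀ j ∈ ({i} : Set (Fin 4)), w j = 0} := by
  ext x
  constructor
  · rintro ⟨hx, hi⟩
    obtain ⟨w, hw, rfl⟩ := (mem_Tet_iff h x).1 hx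
    rw [bary_comb h w hw.2] at hi
    exact ⟨w, ⟨hw, by rintro j rfl; exact hi⟩, rfl⟩
  · rintro ⟨w, ⟨hw, hi⟩, rfl⟩
    refine ⟨(mem_Tet_iff h _).2 ⟨w, hw, rfl⟩, ?_⟩
    show bary α m β (∑ i, w i • vert α m β i) i = 0
    rw [bary_comb h w hw.2]
    exact hi i rfl

/-- the facet `y = 0` -/
def FY (α m β : ℝ) : Set (Fin 3 → ℝ) := {x | x ∈ Tet α m β ∧ x 1 = 0}
/-- the facet `z = 0` -/
def FZ (α m β : ℝ) : Set (Fin 3 → ℝ) := {x | x ∈ Tet α m β ∧ x 2 = 0}
/-- the facet through the left end point -/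
def FL (α m β : ℝ) : Set (Fin 3 → ℝ) :=
  {x | x ∈ Tet α m β ∧ x 0 - m * (x 1 + x 2) - α * (1 - (x 1 + x 2)) = 0}
/-- the facet through the right end point -/
def FR (α m β : ℝ) : Set (Fin 3 → ℝ) :=
  {x | x ∈ Tet α m β ∧ β * (1 - (x 1 + x 2)) - x 0 + m * (x 1 + x 2) = 0}
/-- a segment of the axis -/
def Ax (a b : ℝ) : Set (Fin 3 → ℝ) := {x | x 1 = 0 ∧ x 2 = 0 ∧ a ≤ x 0 ∧ x 0 ≤ b}

theorem isCell_FY {α m β : ℝ} (h : α < β) : IsCell (FY α m β) := by
  have e : FY α m β = {x | x ∈ Tet α m β ∧ bary α m β x 2 = 0} := by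
    ext x; simp [FY, bary]
  rw [e, facet_eq h]
  exact isCell_face _ _

theorem isCell_FZ {α m β : ℝ} (h : α < β) : IsCell (FZ α m β) := by
  have e : FZ α m β = {x | x ∈ Tet α m β ∧ bary α m β x 3 = 0} := by
    ext x; simp [FZ, bary]
  rw [e, facet_eq h]
  exact isCell_face _ _

theorem isCell_FL {α m β : ℝ} (h : α < β) : IsCell (FL α m β) := by
  have h' : β - α ≠ 0 := by linarith
  have e : FL α m β = {x | x ∈ Tet α m β ∧ bary α m β x 1 = 0} := by
    ext x; simp [FL, bary, h']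
  rw [e, facet_eq h]
  exact isCell_face _ _

theorem isCell_FR {α m β : ℝ} (h : α < β) : IsCell (FR α m β) := by
  have h' : β - α ≠ 0 := by linarith
  have e : FR α m β = {x | x ∈ Tet α m β ∧ bary α m β x 0 = 0} := by
    ext x; simp [FR, bary, h']
  rw [e, facet_eq h]
  exact isCell_face _ _

theorem isCell_Tet {α m β : ℝ} (h : α < β) : IsCell (Tet α m β) := by
  rw [Tet_eq_image h]
  exact isCell_simplex _

theorem isCell_Ax {a b : ℝ} (h : a ≤ b) : IsCell (Ax a b) := by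
  refine ⟨{pt a, pt b}, by simp, ?_⟩
  rw [convexHull_pair]
  ext x
  constructor
  · rintro ⟨h1, h2, h3, h4⟩
    rcases h.eq_or_lt with rfl | hab
    · have : x 0 = a := le_antisymm h4 h3
      rw [segment_same, eq_pt h1 h2, this]
      rfl
    · have hba : (0 : ℝ) < b - a := by linarith
      refine ⟨(b - x 0) / (b - a), (x 0 - a) / (b - a), div_nonneg (by linarith) hba.le,
        div_nonneg (by linarith) hba.le, ?_, ?_⟩
      · rw [← add_div, div_eq_one_iff_eq hba.ne']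
        ring
      · funext j
        fin_cases j
        · simp [pt]
          field_simp
          ring
        · simp [pt, h1]
        · simp [pt, h2]
  · rintro ⟨s, t, hs, ht, hst, rfl⟩
    have e : t = 1 - s := by linarith
    subst e
    refine ⟨by simp [pt], by simp [pt], ?_, ?_⟩
    · simp [pt]
      nlinarith
    · simp [pt]
      nlinarith

theorem Sph_eq (α m β : ℝ) : Sph α m β = FY α m β ∪ FZ α m β ∪ FL α m β ∪ FR α m β := by
  ext x
  constructor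
  · rintro ⟨h, h1 | h1 | h1 | h1⟩
    · exact Or.inl (Or.inl (Or.inl ⟨h, h1⟩))
    · exact Or.inl (Or.inl (Or.inr ⟨h, h1⟩))
    · exact Or.inl (Or.inr ⟨h, h1⟩)
    · exact Or.inr ⟨h, h1⟩
  · rintro (((⟨h, h1⟩ | ⟨h, h1⟩) | ⟨h, h1⟩) | ⟨h, h1⟩)
    · exact ⟨h, Or.inl h1⟩
    · exact ⟨h, Or.inr (Or.inl h1)⟩
    · exact ⟨h, Or.inr (Or.inr (Or.inl h1))⟩
    · exact ⟨h, Or.inr (Or.inr (Or.inr h1))⟩

theorem isPolyhedron_Sph {α m β : ℝ} (h : α < β) : IsPolyhedron (Sph α m β) := by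
  rw [Sph_eq]
  exact (((isCell_FY h).isPolyhedron.union (isCell_FZ h).isPolyhedron).union
    (isCell_FL h).isPolyhedron).union (isCell_FR h).isPolyhedron

/-- the three spheres common to all the stages -/
def Base : Set (Fin 3 → ℝ) := Sph (-5) (-4) (-3) ∪ Sph (-3) (-2) (-1) ∪ Sph 2 3 4

theorem isPolyhedron_Base : IsPolyhedron Base :=
  ((isPolyhedron_Sph (by norm_num)).union (isPolyhedron_Sph (by norm_num))).union
    (isPolyhedron_Sph (by norm_num))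

/-- The two facets of the middle tetrahedron. -/
def Mid : Set (Fin 3 → ℝ) := FY 0 (1 / 2) 1 ∪ FZ 0 (1 / 2) 1

theorem isPolyhedron_Mid : IsPolyhedron Mid :=
  (isCell_FY (by norm_num)).isPolyhedron.union (isCell_FZ (by norm_num)).isPolyhedron

def M0 : Set (Fin 3 → ℝ) := (Base ∪ Mid) ∪ Tet (-1) (1 / 2) 0 ∪ Tet 1 (1 / 2) 2

def QK1 : Set (Fin 3 → ℝ) :=
  (Base ∪ Mid) ∪ (FY (-1) (1 / 2) 0 ∪ FZ (-1) (1 / 2) 0 ∪ FL (-1) (1 / 2) 0) ∪ Tet 1 (1 / 2) 2

def QK2 : Set (Fin 3 → ℝ) :=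
  (Base ∪ Mid) ∪ (FY (-1) (1 / 2) 0 ∪ FZ (-1) (1 / 2) 0 ∪ FL (-1) (1 / 2) 0) ∪
    (FL 1 (1 / 2) 2 ∪ FZ 1 (1 / 2) 2)

def QK3 : Set (Fin 3 → ℝ) :=
  (Base ∪ Mid) ∪ (FY (-1) (1 / 2) 0 ∪ FZ (-1) (1 / 2) 0 ∪ FL (-1) (1 / 2) 0) ∪
    (FL 1 (1 / 2) 2 ∪ Ax 1 2)

def QL1 : Set (Fin 3 → ℝ) :=
  (Base ∪ Mid) ∪ (FY 1 (1 / 2) 2 ∪ FZ 1 (1 / 2) 2 ∪ FR 1 (1 / 2) 2) ∪ Tet (-1) (1 / 2) 0

def QL2 : Set (Fin 3 → ℝ) :=
  (Base ∪ Mid) ∪ (FY 1 (1 / 2) 2 ∪ FZ 1 (1 / 2) 2 ∪ FR 1 (1 / 2) 2) ∪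
    (FR (-1) (1 / 2) 0 ∪ FZ (-1) (1 / 2) 0)

def QL3 : Set (Fin 3 → ℝ) :=
  (Base ∪ Mid) ∪ (FY 1 (1 / 2) 2 ∪ FZ 1 (1 / 2) 2 ∪ FR 1 (1 / 2) 2) ∪
    (FR (-1) (1 / 2) 0 ∪ Ax (-1) 0)

theorem isPolyhedron_BM : IsPolyhedron (Base ∪ Mid) := isPolyhedron_Base.union isPolyhedron_Mid

theorem isPolyhedron_QK1 : IsPolyhedron QK1 :=
  (isPolyhedron_BM.union (((isCell_FY (by norm_num)).isPolyhedron.union
    (isCell_FZ (by norm_num)).isPolyhedron).union (isCell_FL (by norm_num)).isPolyhedron)).union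
    (isCell_Tet (by norm_num)).isPolyhedron

theorem isPolyhedron_QK2 : IsPolyhedron QK2 :=
  (isPolyhedron_BM.union (((isCell_FY (by norm_num)).isPolyhedron.union
    (isCell_FZ (by norm_num)).isPolyhedron).union (isCell_FL (by norm_num)).isPolyhedron)).union
    ((isCell_FL (by norm_num)).isPolyhedron.union (isCell_FZ (by norm_num)).isPolyhedron)

theorem isPolyhedron_QK3 : IsPolyhedron QK3 :=
  (isPolyhedron_BM.union (((isCell_FY (by norm_num)).isPolyhedron.union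
    (isCell_FZ (by norm_num)).isPolyhedron).union (isCell_FL (by norm_num)).isPolyhedron)).union
    ((isCell_FL (by norm_num)).isPolyhedron.union (isCell_Ax (by norm_num)).isPolyhedron)

theorem isPolyhedron_QL1 : IsPolyhedron QL1 :=
  (isPolyhedron_BM.union (((isCell_FY (by norm_num)).isPolyhedron.union
    (isCell_FZ (by norm_num)).isPolyhedron).union (isCell_FR (by norm_num)).isPolyhedron)).union
    (isCell_Tet (by norm_num)).isPolyhedron

theorem isPolyhedron_QL2 : IsPolyhedron QL2 :=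
  (isPolyhedron_BM.union (((isCell_FY (by norm_num)).isPolyhedron.union
    (isCell_FZ (by norm_num)).isPolyhedron).union (isCell_FR (by norm_num)).isPolyhedron)).union
    ((isCell_FR (by norm_num)).isPolyhedron.union (isCell_FZ (by norm_num)).isPolyhedron)

theorem isPolyhedron_QL3 : IsPolyhedron QL3 :=
  (isPolyhedron_BM.union (((isCell_FY (by norm_num)).isPolyhedron.union
    (isCell_FZ (by norm_num)).isPolyhedron).union (isCell_FR (by norm_num)).isPolyhedron)).union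
    ((isCell_FR (by norm_num)).isPolyhedron.union (isCell_Ax (by norm_num)).isPolyhedron)

theorem mem_Tet' {α m β : ℝ} {x : Fin 3 → ℝ} : x ∈ Tet α m β ↔
    0 ≤ x 1 ∧ 0 ≤ x 2 ∧ 0 ≤ x 0 - m * (x 1 + x 2) - α * (1 - (x 1 + x 2)) ∧
    0 ≤ β * (1 - (x 1 + x 2)) - x 0 + m * (x 1 + x 2) := Iff.rfl

/-- `Base` lies in the union of the slabs `x ≤ -1` and `2 ≤ x` and meets the planes
`x = -1`, `x = 2` only in points of the axis. -/
theorem Base_out {x : Fin 3 → ℝ} (hx : x ∈ Base) :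
    x 0 ≤ -1 ∨ 2 ≤ x 0 := by
  rcases hx with (hx | hx) | hx
  · have := Sph_range (by norm_num) (by norm_num) hx
    left; linarith [this.2]
  · have := Sph_range (by norm_num) (by norm_num) hx
    left; linarith [this.2]
  · have := Sph_range (by norm_num) (by norm_num) hx
    right; linarith [this.1]

end Pool.Agent.Helper31.GZ
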