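import Mathlib
import Pool.Agent.Helper31.GZ.Neck

set_option autoImplicit false

namespace Pool.Agent.Helper31.GZ

open Set

theorem no_embed_line (Φ : S2 → ℝ) (hΦ : Continuous Φ) : ¬ Function.Injective Φ := by
  intro hinj
  -- two distinct points
  have hne : ∃ a b : S2, a ≠ b := by
    refine ⟨⟨EuclideanSpace.single 0 1, by simp⟩, ⟨EuclideanSpace.single 1 1, by simp⟩, ?_⟩
    intro h
    have h1 := congrArg (fun x : S2 => (x : E3) 0) h
    simp at h1
  obtain ⟨a, b, hab⟩ := hne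
  wlog hlt : Φ a < Φ b generalizing a b
  · exact this b a hab.symm (lt_of_le_of_ne (not_lt.1 hlt) (fun h => hab (hinj h).symm))
  set m := (Φ a + Φ b) / 2 with hm
  set A := {x | Φ x ≤ m} with hA
  set B := {x | m ≤ Φ x} with hB
  have hsub : Φ '' (A ∩ B) ⊆ {m} := by
    rintro _ ⟨x, ⟨h1, h2⟩, rfl⟩
    exact le_antisymm h1 h2
  have hD : ∃ (n : ℕ) (u w : Fin n → ℝ), Φ '' (A ∩ B) = ⋃ i, Icc (u i) (w i) := by
    rcases subset_singleton_iff_eq.1 hsub with h | h
    · exact ⟨0, Fin.elim0, Fin.elim0, by rw [h]; simp⟩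
    · exact ⟨1, fun _ => m, fun _ => m, by rw [h]; simp⟩
  obtain ⟨n, u, w, hD⟩ := hD
  rcases sphere_no_cut A B (isClosed_le hΦ continuous_const) (isClosed_le continuous_const hΦ)
    (by ext x; simp [hA, hB, le_total]) Φ hΦ hinj.injOn n u w hD with h | h
  · have : b ∈ A := by rw [h]; trivial
    have h1 : Φ b ≤ m := this
    linarith
  · have : a ∈ B := by rw [h]; trivial
    have h1 : m ≤ Φ a := this
    linarith

section

variable (p q : Params) (g : (Fin 3 → ℝ) → (Fin 3 → ℝ) × ℝ)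

/-- A sphere of the embedded necklace does not cross a cut point. -/
theorem no_cross (hpoly : ∀ k, IsPolyhedron (Sph (q.α k) (q.m k) (q.β k)))
    (hg : IsPLOn g (Neck q)) (hinj : InjOn g (Neck q))
    (hmap : ∀ y ∈ Neck q, (g y).1 ∈ Neck p) (k : Fin 4) (c : ℝ)
    (hc : ∀ v ∈ Neck p, v 0 = c → v = pt c) :
    (∀ y ∈ Sph (q.α k) (q.m k) (q.β k), (g y).1 0 ≤ c) ∨
    (∀ y ∈ Sph (q.α k) (q.m k) (q.β k), c ≤ (g y).1 0) := by
  set T := Sph (q.α k) (q.m k) (q.β k) with hT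
  have hTY : T ⊆ Neck q := Sph_subset_Neck q k
  obtain ⟨e⟩ := Sph_homeo (m := q.m k) (q.ab k)
  have hgT : Continuous (fun s : S2 => g (e.symm s : Fin 3 → ℝ)) :=
    hg.1.comp_continuous (continuous_subtype_val.comp e.symm.continuous)
      (fun s => hTY (e.symm s).2)
  have h0 : Continuous (fun s : S2 => (g (e.symm s : Fin 3 → ℝ)).1 0) :=
    (continuous_apply 0).comp (continuous_fst.comp hgT)
  set A : Set S2 := {s | (g (e.symm s : Fin 3 → ℝ)).1 0 ≤ c} with hA
  set B : Set S2 := {s | c ≤ (g (e.symm s : Fin 3 → ℝ)).1 0} with hB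
  set Φ : S2 → ℝ := fun s => (g (e.symm s : Fin 3 → ℝ)).2 with hΦ
  have hΦc : Continuous Φ := continuous_snd.comp hgT
  have hAB : ∀ s ∈ A ∩ B, (g (e.symm s : Fin 3 → ℝ)).1 = pt c := by
    rintro s ⟨h1, h2⟩
    exact hc _ (hmap _ (hTY (e.symm s).2)) (le_antisymm h1 h2)
  have hΦinj : InjOn Φ (A ∩ B) := by
    intro s hs t ht hst
    have h1 := hAB s hs
    have h2 := hAB t ht
    have h3 : g (e.symm s : Fin 3 → ℝ) = g (e.symm t : Fin 3 → ℝ) :=
      Prod.ext (h1.trans h2.symm) hst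
    have h4 := hinj (hTY (e.symm s).2) (hTY (e.symm t).2) h3
    exact e.symm.injective (Subtype.ext h4)
  obtain ⟨n, u, w, hD⟩ := pl_section (hpoly k) hTY g hg c
  have hD' : Φ '' (A ∩ B) = ⋃ i, Icc (u i) (w i) := by
    rw [← hD]
    ext t
    constructor
    · rintro ⟨s, ⟨h1, h2⟩, rfl⟩
      exact ⟨e.symm s, ⟨(e.symm s).2, le_antisymm h1 h2⟩, rfl⟩
    · rintro ⟨y, ⟨hy, hyc⟩, rfl⟩
      refine ⟨e ⟨y, hy⟩, ⟨?_, ?_⟩, ?_⟩
      · show (g (e.symm (e ⟨y, hy⟩) : Fin 3 → ℝ)).1 0 ≤ c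
        rw [e.symm_apply_apply]; exact hyc.le
      · show c ≤ (g (e.symm (e ⟨y, hy⟩) : Fin 3 → ℝ)).1 0
        rw [e.symm_apply_apply]; exact hyc.ge
      · show (g (e.symm (e ⟨y, hy⟩) : Fin 3 → ℝ)).2 = (g y).2
        rw [e.symm_apply_apply]
  rcases sphere_no_cut A B (isClosed_le h0 continuous_const) (isClosed_le continuous_const h0)
    (by ext x; simp [hA, hB, le_total]) Φ hΦc hΦinj n u w hD' with h | h
  · left
    intro y hy
    have : e ⟨y, hy⟩ ∈ A := by rw [h]; trivial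
    have h1 : (g (e.symm (e ⟨y, hy⟩) : Fin 3 → ℝ)).1 0 ≤ c := this
    rwa [e.symm_apply_apply] at h1
  · right
    intro y hy
    have : e ⟨y, hy⟩ ∈ B := by rw [h]; trivial
    have h1 : c ≤ (g (e.symm (e ⟨y, hy⟩) : Fin 3 → ℝ)).1 0 := this
    rwa [e.symm_apply_apply] at h1

/-- Every slab contains one of the embedded spheres. -/
theorem slab_used (hpoly : ∀ k, IsPolyhedron (Sph (q.α k) (q.m k) (q.β k)))
    (hg : IsPLOn g (Neck q)) (hinj : InjOn g (Neck q))
    (hmap : ∀ y ∈ Neck q, (g y).1 ∈ Neck p)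
    (hret : DefRet (Neck p ×ˢ Icc (0 : ℝ) 1) (g '' Neck q)) (i : Fin 4) :
    ∃ k, ∀ y ∈ Sph (q.α k) (q.m k) (q.β k), p.α i ≤ (g y).1 0 ∧ (g y).1 0 ≤ p.β i := by
  by_contra hcon
  push Not at hcon
  have hside : ∀ k, (∀ y ∈ Sph (q.α k) (q.m k) (q.β k), (g y).1 0 ≤ p.α i) ∨
      (∀ y ∈ Sph (q.α k) (q.m k) (q.β k), p.β i ≤ (g y).1 0) := by
    intro k
    rcases no_cross p q g hpoly hg hinj hmap k (p.α i) (fun v hv h => Neck_left p i hv h) with h | h
    · exact Or.inl h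
    · rcases no_cross p q g hpoly hg hinj hmap k (p.β i)
        (fun v hv h => Neck_right p i hv h) with h' | h'
      · obtain ⟨y, hy, hy'⟩ := hcon k
        exact absurd (h' y hy) (not_le.2 (hy' (h y hy)))
      · exact Or.inr h'
  -- the map f
  set f : Neck q → Sph (p.α i) (p.m i) (p.β i) := fun y =>
    ⟨rho p i (g y).1, rho_mem p i (hmap y y.2)⟩ with hf
  have hgc : Continuous (fun y : Neck q => g y) := continuousOn_iff_continuous_domRestrict.1 hg.1
  have hfc : Continuous f := by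
    refine Continuous.subtype_mk ?_ _
    exact (continuous_rho p i).comp
      (Continuous.subtype_mk (continuous_fst.comp hgc) (fun y => hmap y y.2))
  have hconst : ∀ k, ∀ y (hy : y ∈ Sph (q.α k) (q.m k) (q.β k)),
      ∀ z (hz : z ∈ Sph (q.α k) (q.m k) (q.β k)),
      f ⟨y, Sph_subset_Neck q k hy⟩ = f ⟨z, Sph_subset_Neck q k hz⟩ := by
    intro k y hy z hz
    apply Subtype.ext
    show rho p i (g y).1 = rho p i (g z).1
    rcases hside k with h | h
    · rw [rho_low p i (h y hy), rho_low p i (h z hz)]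
    · rw [rho_high p i (hmap y (Sph_subset_Neck q k hy)) (h y hy),
        rho_high p i (hmap z (Sph_subset_Neck q k hz)) (h z hz)]
  have hax : ∀ y : Neck q, f y = f ⟨pt ((y : Fin 3 → ℝ) 0),
      pt_mem_Neck q (Neck_range q y.2).1 (Neck_range q y.2).2⟩ := by
    rintro ⟨y, hy⟩
    rcases hy with hy | hy
    · obtain ⟨k, hk⟩ := mem_iUnion.1 hy
      have hr := Sph_range (q.hm1 k) (q.hm2 k) hk
      exact hconst k y hk _ (pt_mem_Sph hr.1 hr.2)
    · have e : y = pt (y 0) := eq_pt hy.1 hy.2.1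
      apply congrArg f
      apply Subtype.ext
      exact e
  have hfnull : (⟨f, hfc⟩ : C(Neck q, Sph (p.α i) (p.m i) (p.β i))).Nullhomotopic := by
    have hq0 : q.α 0 ≤ q.β 3 := by
      have := Neck_range q (pt_mem_Neck q (c := q.α 0) le_rfl (by
        have h1 := q.ordered 0 3 (by decide)
        linarith [q.ab 0, q.ab 3]))
      exact this.1.trans this.2
    have hmem : ∀ (t : unitInterval) (y : Neck q),
        pt ((1 - (t : ℝ)) * (y : Fin 3 → ℝ) 0 + (t : ℝ) * q.α 0) ∈ Neck q := by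
      intro t y
      have h1 := Neck_range q y.2
      have ht0 : (0 : ℝ) ≤ t := t.2.1
      have ht1 : (t : ℝ) ≤ 1 := t.2.2
      apply pt_mem_Neck
      · nlinarith
      · nlinarith
    refine ⟨f ⟨pt (q.α 0), pt_mem_Neck q le_rfl hq0⟩, ⟨⟨⟨fun z => f ⟨pt ((1 - (z.1 : ℝ)) *
      (z.2 : Fin 3 → ℝ) 0 + (z.1 : ℝ) * q.α 0), hmem z.1 z.2⟩, ?_⟩, ?_, ?_⟩⟩⟩
    · refine hfc.comp (Continuous.subtype_mk (continuous_pt.comp ?_) _)
      have h1 : Continuous (fun z : unitInterval × Neck q => ((z.1 : ℝ))) :=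
        continuous_subtype_val.comp continuous_fst
      have h2 : Continuous (fun z : unitInterval × Neck q => (z.2 : Fin 3 → ℝ) 0) :=
        (continuous_apply 0).comp (continuous_subtype_val.comp continuous_snd)
      exact ((continuous_const.sub h1).mul h2).add (h1.mul continuous_const)
    · intro y
      rw [show (⟨f, hfc⟩ : C(Neck q, Sph (p.α i) (p.m i) (p.β i))) y = f y from rfl, hax y]
      simp
    · intro y
      simp
  -- contradiction
  obtain ⟨hsub, r, ⟨H⟩⟩ := hret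
  have hYc : IsCompact (Neck q) := hg.isCompact
  have hne : Nonempty (Fin 3 → ℝ) := ⟨0⟩
  have hginvc : ContinuousOn (Function.invFunOn g (Neck q)) (g '' Neck q) :=
    continuousOn_invFunOn hYc hg.1 hinj
  have hginv_mem : ∀ z ∈ g '' Neck q, Function.invFunOn g (Neck q) z ∈ Neck q := by
    rintro _ ⟨y, hy, rfl⟩
    rw [hinj.leftInvOn_invFunOn hy]; exact hy
  have hginv : ∀ z ∈ g '' Neck q, g (Function.invFunOn g (Neck q) z) = z := by
    rintro _ ⟨y, hy, rfl⟩
    rw [hinj.leftInvOn_invFunOn hy]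
  set ginv : C(↥(g '' Neck q), Neck q) := ⟨fun z => ⟨Function.invFunOn g (Neck q) z,
    hginv_mem z z.2⟩, Continuous.subtype_mk
      (continuousOn_iff_continuous_domRestrict.1 hginvc) _⟩ with hginvdef
  set ι : C(↥(Sph (p.α i) (p.m i) (p.β i)), ↥(Neck p ×ˢ Icc (0 : ℝ) 1)) := ⟨fun s => ⟨((s : Fin 3 → ℝ), 0), ⟨Sph_subset_Neck p i s.2, by simp⟩⟩,
    Continuous.subtype_mk (continuous_subtype_val.prodMk continuous_const) _⟩ with hι
  set ρ : C(↥(Neck p ×ˢ Icc (0 : ℝ) 1), ↥(Sph (p.α i) (p.m i) (p.β i))) := ⟨fun x => ⟨rho p i (x : (Fin 3 → ℝ) × ℝ).1, rho_mem p i x.2.1⟩,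
    Continuous.subtype_mk ((continuous_rho p i).comp (Continuous.subtype_mk
      (continuous_fst.comp continuous_subtype_val) (fun x => x.2.1))) _⟩ with hρ
  have e1 : (ρ.comp (ContinuousMap.id ↥(Neck p ×ˢ Icc (0 : ℝ) 1))).comp ι = ContinuousMap.id ↥(Sph (p.α i) (p.m i) (p.β i)) := by
    ext1 s
    apply Subtype.ext
    exact rho_id p i s.2
  have e2 : (ρ.comp ((⟨Set.inclusion hsub, continuous_inclusion hsub⟩ :
      C(↥(g '' Neck q), ↥(Neck p ×ˢ Icc (0 : ℝ) 1))).comp r)).comp ι =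
      (⟨f, hfc⟩ : C(Neck q, ↥(Sph (p.α i) (p.m i) (p.β i)))).comp (ginv.comp (r.comp ι)) := by
    ext1 s
    apply Subtype.ext
    show rho p i ((r (ι s) : ↥(g '' Neck q)) : (Fin 3 → ℝ) × ℝ).1 =
      rho p i (g (Function.invFunOn g (Neck q) ((r (ι s) : ↥(g '' Neck q)) :
        (Fin 3 → ℝ) × ℝ))).1
    rw [hginv _ (r (ι s)).2]
  have hH : ContinuousMap.Homotopic (ContinuousMap.id ↥(Sph (p.α i) (p.m i) (p.β i)))
      ((⟨f, hfc⟩ : C(Neck q, ↥(Sph (p.α i) (p.m i) (p.β i)))).comp (ginv.comp (r.comp ι))) := by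
    rw [← e1, ← e2]
    exact ContinuousMap.Homotopic.comp (ContinuousMap.Homotopic.comp
      (ContinuousMap.Homotopic.refl _) ⟨H⟩) (ContinuousMap.Homotopic.refl _)
  have hnull : (ContinuousMap.id ↥(Sph (p.α i) (p.m i) (p.β i))).Nullhomotopic := by
    obtain ⟨y, hy⟩ := hfnull.comp_left (ginv.comp (r.comp ι))
    exact ⟨y, hH.trans hy⟩
  obtain ⟨e⟩ := Sph_homeo (m := p.m i) (p.ab i)
  apply sphere_not_nullhomotopic
  have h1 := (hnull.comp_left (e.symm : C(S2, ↥(Sph (p.α i) (p.m i) (p.β i))))).comp_right (e : C(↥(Sph (p.α i) (p.m i) (p.β i)), S2))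
  have h2 : ((e : C(↥(Sph (p.α i) (p.m i) (p.β i)), S2)).comp ((ContinuousMap.id ↥(Sph (p.α i) (p.m i) (p.β i))).comp (e.symm : C(S2, ↥(Sph (p.α i) (p.m i) (p.β i)))))) =
      ContinuousMap.id S2 := by
    ext1 s
    simp
  rwa [h2] at h1

theorem slab_inj (hg : IsPLOn g (Neck q)) (hinj : InjOn g (Neck q))
    (hmap : ∀ y ∈ Neck q, (g y).1 ∈ Neck p) (i j : Fin 4) (hij : i < j) (k : Fin 4)
    (hi : ∀ y ∈ Sph (q.α k) (q.m k) (q.β k), p.α i ≤ (g y).1 0 ∧ (g y).1 0 ≤ p.β i)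
    (hj : ∀ y ∈ Sph (q.α k) (q.m k) (q.β k), p.α j ≤ (g y).1 0 ∧ (g y).1 0 ≤ p.β j) : False := by
  obtain ⟨e⟩ := Sph_homeo (m := q.m k) (q.ab k)
  have hTY := Sph_subset_Neck q k
  have hord := p.ordered i j hij
  have hgT : Continuous (fun s : S2 => g (e.symm s : Fin 3 → ℝ)) :=
    hg.1.comp_continuous (continuous_subtype_val.comp e.symm.continuous)
      (fun s => hTY (e.symm s).2)
  refine no_embed_line (fun s => (g (e.symm s : Fin 3 → ℝ)).2) (continuous_snd.comp hgT) ?_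
  intro s t hst
  have key : ∀ s : S2, (g (e.symm s : Fin 3 → ℝ)).1 = pt (p.β i) := by
    intro s
    have h1 := (hi _ (e.symm s).2).2
    have h2 := (hj _ (e.symm s).2).1
    exact Neck_right p i (hmap _ (hTY (e.symm s).2)) (le_antisymm h1 (hord.trans h2))
  have h3 : g (e.symm s : Fin 3 → ℝ) = g (e.symm t : Fin 3 → ℝ) :=
    Prod.ext ((key s).trans (key t).symm) hst
  have h4 := hinj (hTY (e.symm s).2) (hTY (e.symm t).2) h3
  exact e.symm.injective (Subtype.ext h4)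

/-- The matching between the spheres of the embedded necklace and the slabs. -/
theorem exists_matching (hpoly : ∀ k, IsPolyhedron (Sph (q.α k) (q.m k) (q.β k)))
    (hg : IsPLOn g (Neck q)) (hinj : InjOn g (Neck q))
    (hmap : ∀ y ∈ Neck q, (g y).1 ∈ Neck p)
    (hret : DefRet (Neck p ×ˢ Icc (0 : ℝ) 1) (g '' Neck q)) :
    ∃ σ : Fin 4 → Fin 4, Function.Bijective σ ∧
      ∀ k, ∀ y ∈ Sph (q.α k) (q.m k) (q.β k), p.α (σ k) ≤ (g y).1 0 ∧ (g y).1 0 ≤ p.β (σ k) := by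
  choose τ hτ using fun i => slab_used p q g hpoly hg hinj hmap hret i
  have hinjτ : Function.Injective τ := by
    intro i j hij
    by_contra hne
    rcases lt_or_gt_of_ne hne with h | h
    · exact slab_inj p q g hg hinj hmap i j h (τ i) (hτ i) (by rw [hij]; exact hτ j)
    · exact slab_inj p q g hg hinj hmap j i h (τ j) (hτ j) (by rw [← hij]; exact hτ i)
  have hbij : Function.Bijective τ := Finite.injective_iff_bijective.1 hinjτ
  set e := Equiv.ofBijective τ hbij with he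
  refine ⟨e.symm, e.symm.bijective, ?_⟩
  intro k y hy
  have := hτ (e.symm k)
  rw [show τ (e.symm k) = k from e.apply_symm_apply k] at this
  exact this y hy

end

end Pool.Agent.Helper31.GZ
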