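import Mathlib
import Pool.Agent.Helper31.GZ.Defs
import Pool.Agent.Helper31.GZ.Simplex
import Pool.Agent.Helper31.GZ.Tetra
import Pool.Agent.Helper31.GZ.Neck
import Pool.Agent.Helper31.GZ.Example

set_option autoImplicit false

namespace Pool.Agent.Helper31.GZ

open Set

theorem exists_univ3 (w : Fin 4 → ℝ) :
    (∃ j ∈ (Finset.univ : Finset (Fin 3)), w (Fin.castSucc j) = 0) ↔ (w 0 = 0 ∨ w 1 = 0 ∨ w 2 = 0) := by
  simp [Fin.exists_fin_succ]

theorem exists_01 (w : Fin 4 → ℝ) :
    (∃ j ∈ ({0, 1} : Finset (Fin 3)), w (Fin.castSucc j) = 0) ↔ (w 0 = 0 ∨ w 1 = 0) := by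
  simp

theorem exists_01' (w : Fin 3 → ℝ) :
    (∃ j ∈ ({0, 1} : Finset (Fin 2)), w (Fin.castSucc j) = 0) ↔ (w 0 = 0 ∨ w 1 = 0) := by
  simp

/-! ### from `M0` to `QK1` -/

noncomputable def vK1 : Fin 4 → (Fin 3 → ℝ) := ![![0, 0, 0], ![1 / 2, 1, 0], ![1 / 2, 0, 1], ![-1, 0, 0]]

theorem vK1_0 (w : Fin 4 → ℝ) : (∑ i, w i • vK1 i) 0 = w 1 / 2 + w 2 / 2 - w 3 := by
  rw [Fin.sum_univ_four]; simp [vK1]; ring
theorem vK1_1 (w : Fin 4 → ℝ) : (∑ i, w i • vK1 i) 1 = w 1 := by
  rw [Fin.sum_univ_four]; simp [vK1]
theorem vK1_2 (w : Fin 4 → ℝ) : (∑ i, w i • vK1 i) 2 = w 2 := by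
  rw [Fin.sum_univ_four]; simp [vK1]

theorem collK1 : ElemCollapse M0 QK1 := by
  refine elemCollapse_simplex vK1 ?_ Finset.univ ⟨0, Finset.mem_univ _⟩ _ _ isPolyhedron_QK1 ?_ ?_
  · intro w w' hs h
    have h0 := congrFun h 0
    have h1 := congrFun h 1
    have h2 := congrFun h 2
    rw [vK1_0, vK1_0] at h0
    rw [vK1_1, vK1_1] at h1
    rw [vK1_2, vK1_2] at h2
    rw [Fin.sum_univ_four, Fin.sum_univ_four] at hs
    funext i
    fin_cases i
    · show w 0 = w' 0
      linarith
    · exact h1
    · exact h2
    · show w 3 = w' 3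
      linarith
  · have e : (fun w : Fin 4 → ℝ => ∑ i, w i • vK1 i) '' stdSimplex ℝ (Fin 4) =
        Tet (-1) (1 / 2) 0 := by
      ext x
      constructor
      · rintro ⟨w, ⟨hw, hs⟩, rfl⟩
        have h0 := vK1_0 w
        have h1 := vK1_1 w
        have h2 := vK1_2 w
        show (∑ i, w i • vK1 i) ∈ _
        generalize (∑ i, w i • vK1 i) = x at h0 h1 h2 ⊢
        rw [Fin.sum_univ_four] at hs
        have g0 := hw 0
        have g1 := hw 1
        have g2 := hw 2
        have g3 := hw 3
        refine ⟨by linarith, by linarith, by linarith, by linarith⟩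
      · rintro ⟨a, b, c, d⟩
        refine ⟨![x 0 - 1 / 2 * (x 1 + x 2) + (1 - (x 1 + x 2)), x 1, x 2,
          -(x 0 - 1 / 2 * (x 1 + x 2))], ⟨?_, ?_⟩, ?_⟩
        · intro i
          fin_cases i
          · simp only [Fin.zero_eta, Matrix.cons_val_zero]
            linarith
          · exact a
          · exact b
          · show 0 ≤ -(x 0 - 1 / 2 * (x 1 + x 2))
            linarith
        · rw [Fin.sum_univ_four]
          simp
          ring
        · funext i
          fin_cases i
          · refine (vK1_0 _).trans ?_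
            simp
            ring
          · exact (vK1_1 _).trans rfl
          · exact (vK1_2 _).trans rfl
    rw [e]
    ext x
    simp only [M0, QK1, mem_union]
    constructor
    · rintro ((h | h) | h)
      · exact Or.inl (Or.inl (Or.inl h))
      · exact Or.inr h
      · exact Or.inl (Or.inr h)
    · rintro (((h | ((h | h) | h)) | h) | h)
      · exact Or.inl (Or.inl h)
      · exact Or.inl (Or.inr h.1)
      · exact Or.inl (Or.inr h.1)
      · exact Or.inl (Or.inr h.1)
      · exact Or.inr h
      · exact Or.inl (Or.inr h)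
  · intro w hw
    obtain ⟨hw, hs⟩ := hw
    rw [exists_univ3]
    have h0 := vK1_0 w
    have h1 := vK1_1 w
    have h2 := vK1_2 w
    generalize (∑ i, w i • vK1 i) = x at h0 h1 h2 ⊢
    rw [Fin.sum_univ_four] at hs
    have g0 := hw 0
    have g1 := hw 1
    have g2 := hw 2
    have g3 := hw 3
    constructor
    · rintro (((h | h) | ((h | h) | h)) | h)
      · rcases Base_out h with h | h <;> (first | (exfalso; linarith) | (left; linarith) | (right; left; linarith) | (right; right; linarith))
      · rcases h with ⟨⟨a, b, c, d⟩, e⟩ | ⟨⟨a, b, c, d⟩, e⟩ <;> (first | (exfalso; linarith) | (left; linarith) | (right; left; linarith) | (right; right; linarith))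
      · obtain ⟨⟨a, b, c, d⟩, e⟩ := h
        first | (exfalso; linarith) | (left; linarith) | (right; left; linarith) | (right; right; linarith)
      · obtain ⟨⟨a, b, c, d⟩, e⟩ := h
        first | (exfalso; linarith) | (left; linarith) | (right; left; linarith) | (right; right; linarith)
      · obtain ⟨⟨a, b, c, d⟩, e⟩ := h
        first | (exfalso; linarith) | (left; linarith) | (right; left; linarith) | (right; right; linarith)
      · obtain ⟨a, b, c, d⟩ := h
        first | (exfalso; linarith) | (left; linarith) | (right; left; linarith) | (right; right; linarith)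
    · rintro (h | h | h)
      · refine Or.inl (Or.inr (Or.inr ⟨?_, ?_⟩))
        · refine ⟨by linarith, by linarith, by linarith, by linarith⟩
        · linarith
      · refine Or.inl (Or.inr (Or.inl (Or.inl ⟨?_, ?_⟩)))
        · refine ⟨by linarith, by linarith, by linarith, by linarith⟩
        · linarith
      · refine Or.inl (Or.inr (Or.inl (Or.inr ⟨?_, ?_⟩)))
        · refine ⟨by linarith, by linarith, by linarith, by linarith⟩
        · linarith

/-! ### from `QK1` to `QK2` -/

noncomputable def vK2 : Fin 4 → (Fin 3 → ℝ) := ![![2, 0, 0], ![1 / 2, 0, 1], ![1 / 2, 1, 0], ![1, 0, 0]]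

theorem vK2_0 (w : Fin 4 → ℝ) : (∑ i, w i • vK2 i) 0 = 2 * w 0 + w 1 / 2 + w 2 / 2 + w 3 := by
  rw [Fin.sum_univ_four]; simp [vK2]; ring
theorem vK2_1 (w : Fin 4 → ℝ) : (∑ i, w i • vK2 i) 1 = w 2 := by
  rw [Fin.sum_univ_four]; simp [vK2]
theorem vK2_2 (w : Fin 4 → ℝ) : (∑ i, w i • vK2 i) 2 = w 1 := by
  rw [Fin.sum_univ_four]; simp [vK2]

theorem collK2 : ElemCollapse QK1 QK2 := by
  refine elemCollapse_simplex vK2 ?_ {0, 1} ⟨0, by simp⟩ _ _ isPolyhedron_QK2 ?_ ?_
  · intro w w' hs h
    have h0 := congrFun h 0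
    have h1 := congrFun h 1
    have h2 := congrFun h 2
    rw [vK2_0, vK2_0] at h0
    rw [vK2_1, vK2_1] at h1
    rw [vK2_2, vK2_2] at h2
    rw [Fin.sum_univ_four, Fin.sum_univ_four] at hs
    funext i
    fin_cases i
    · show w 0 = w' 0
      linarith
    · exact h2
    · exact h1
    · show w 3 = w' 3
      linarith
  · have e : (fun w : Fin 4 → ℝ => ∑ i, w i • vK2 i) '' stdSimplex ℝ (Fin 4) =
        Tet 1 (1 / 2) 2 := by
      ext x
      constructor
      · rintro ⟨w, ⟨hw, hs⟩, rfl⟩
        have h0 := vK2_0 w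
        have h1 := vK2_1 w
        have h2 := vK2_2 w
        show (∑ i, w i • vK2 i) ∈ _
        generalize (∑ i, w i • vK2 i) = x at h0 h1 h2 ⊢
        rw [Fin.sum_univ_four] at hs
        have g0 := hw 0
        have g1 := hw 1
        have g2 := hw 2
        have g3 := hw 3
        refine ⟨by linarith, by linarith, by linarith, by linarith⟩
      · rintro ⟨a, b, c, d⟩
        refine ⟨![(x 0 - 1 / 2 * (x 1 + x 2)) - (1 - (x 1 + x 2)), x 2, x 1,
          2 * (1 - (x 1 + x 2)) - (x 0 - 1 / 2 * (x 1 + x 2))], ⟨?_, ?_⟩, ?_⟩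
        · intro i
          fin_cases i
          · show 0 ≤ (x 0 - 1 / 2 * (x 1 + x 2)) - (1 - (x 1 + x 2))
            linarith
          · exact b
          · exact a
          · show 0 ≤ 2 * (1 - (x 1 + x 2)) - (x 0 - 1 / 2 * (x 1 + x 2))
            linarith
        · rw [Fin.sum_univ_four]
          simp
          ring
        · funext i
          fin_cases i
          · refine (vK2_0 _).trans ?_
            simp
            ring
          · exact (vK2_1 _).trans rfl
          · exact (vK2_2 _).trans rfl
    rw [e]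
    ext x
    simp only [QK1, QK2, mem_union]
    constructor
    · rintro (h | h)
      · exact Or.inl (Or.inl h)
      · exact Or.inr h
    · rintro ((h | h | h) | h)
      · exact Or.inl h
      · exact Or.inr h.1
      · exact Or.inr h.1
      · exact Or.inr h
  · intro w hw
    obtain ⟨hw, hs⟩ := hw
    rw [exists_01]
    have h0 := vK2_0 w
    have h1 := vK2_1 w
    have h2 := vK2_2 w
    generalize (∑ i, w i • vK2 i) = x at h0 h1 h2 ⊢
    rw [Fin.sum_univ_four] at hs
    have g0 := hw 0
    have g1 := hw 1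
    have g2 := hw 2
    have g3 := hw 3
    constructor
    · rintro (((h | h) | ((h | h) | h)) | (h | h))
      · rcases Base_out h with h | h <;> (first | (exfalso; linarith) | (left; linarith) | (right; linarith))
      · rcases h with ⟨⟨a, b, c, d⟩, e⟩ | ⟨⟨a, b, c, d⟩, e⟩ <;> (first | (exfalso; linarith) | (left; linarith) | (right; linarith))
      · obtain ⟨⟨a, b, c, d⟩, e⟩ := h
        first | (exfalso; linarith) | (left; linarith) | (right; linarith)
      · obtain ⟨⟨a, b, c, d⟩, e⟩ := h
        first | (exfalso; linarith) | (left; linarith) | (right; linarith)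
      · obtain ⟨⟨a, b, c, d⟩, e⟩ := h
        first | (exfalso; linarith) | (left; linarith) | (right; linarith)
      · obtain ⟨⟨a, b, c, d⟩, e⟩ := h
        first | (exfalso; linarith) | (left; linarith) | (right; linarith)
      · obtain ⟨⟨a, b, c, d⟩, e⟩ := h
        first | (exfalso; linarith) | (left; linarith) | (right; linarith)
    · rintro (h | h)
      · refine Or.inr (Or.inl ⟨?_, ?_⟩)
        · refine ⟨by linarith, by linarith, by linarith, by linarith⟩
        · linarith
      · refine Or.inr (Or.inr ⟨?_, ?_⟩)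
        · refine ⟨by linarith, by linarith, by linarith, by linarith⟩
        · linarith

/-! ### from `QK2` to `QK3` -/

noncomputable def vK3 : Fin 3 → (Fin 3 → ℝ) := ![![2, 0, 0], ![1 / 2, 1, 0], ![1, 0, 0]]

theorem vK3_0 (w : Fin 3 → ℝ) : (∑ i, w i • vK3 i) 0 = 2 * w 0 + w 1 / 2 + w 2 := by
  rw [Fin.sum_univ_three]; simp [vK3]; ring
theorem vK3_1 (w : Fin 3 → ℝ) : (∑ i, w i • vK3 i) 1 = w 1 := by
  rw [Fin.sum_univ_three]; simp [vK3]
theorem vK3_2 (w : Fin 3 → ℝ) : (∑ i, w i • vK3 i) 2 = 0 := by
  rw [Fin.sum_univ_three]; simp [vK3]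

theorem collK3 : ElemCollapse QK2 QK3 := by
  refine elemCollapse_simplex vK3 ?_ {0, 1} ⟨0, by simp⟩ _ _ isPolyhedron_QK3 ?_ ?_
  · intro w w' hs h
    have h0 := congrFun h 0
    have h1 := congrFun h 1
    rw [vK3_0, vK3_0] at h0
    rw [vK3_1, vK3_1] at h1
    rw [Fin.sum_univ_three, Fin.sum_univ_three] at hs
    funext i
    fin_cases i
    · show w 0 = w' 0
      linarith
    · exact h1
    · show w 2 = w' 2
      linarith
  · have e : (fun w : Fin 3 → ℝ => ∑ i, w i • vK3 i) '' stdSimplex ℝ (Fin 3) =
        FZ 1 (1 / 2) 2 := by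
      ext x
      constructor
      · rintro ⟨w, ⟨hw, hs⟩, rfl⟩
        have h0 := vK3_0 w
        have h1 := vK3_1 w
        have h2 := vK3_2 w
        show (∑ i, w i • vK3 i) ∈ _
        generalize (∑ i, w i • vK3 i) = x at h0 h1 h2 ⊢
        rw [Fin.sum_univ_three] at hs
        have g0 := hw 0
        have g1 := hw 1
        have g2 := hw 2
        refine ⟨?_, h2⟩
        refine ⟨by linarith, by linarith, by linarith, by linarith⟩
      · rintro ⟨⟨a, b, c, d⟩, e⟩
        refine ⟨![(x 0 - 1 / 2 * (x 1 + x 2)) - (1 - (x 1 + x 2)), x 1,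
          2 * (1 - (x 1 + x 2)) - (x 0 - 1 / 2 * (x 1 + x 2))], ⟨?_, ?_⟩, ?_⟩
        · intro i
          fin_cases i
          · show 0 ≤ (x 0 - 1 / 2 * (x 1 + x 2)) - (1 - (x 1 + x 2))
            linarith
          · exact a
          · show 0 ≤ 2 * (1 - (x 1 + x 2)) - (x 0 - 1 / 2 * (x 1 + x 2))
            linarith
        · rw [Fin.sum_univ_three]
          simp
          linarith
        · funext i
          fin_cases i
          · refine (vK3_0 _).trans ?_
            simp
            linarith
          · exact (vK3_1 _).trans rfl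
          · exact (vK3_2 _).trans e.symm
    rw [e]
    ext x
    simp only [QK2, QK3, mem_union]
    constructor
    · rintro (h | (h | h))
      · exact Or.inl (Or.inl h)
      · exact Or.inl (Or.inr (Or.inl h))
      · exact Or.inr h
    · rintro ((h | (h | h)) | h)
      · exact Or.inl h
      · exact Or.inr (Or.inl h)
      · refine Or.inr (Or.inr ?_)
        obtain ⟨h1, h2, h3, h4⟩ := h
        refine ⟨?_, h2⟩
        refine ⟨by linarith, by linarith, by linarith, by linarith⟩
      · exact Or.inr (Or.inr h)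
  · intro w hw
    obtain ⟨hw, hs⟩ := hw
    rw [exists_01']
    have h0 := vK3_0 w
    have h1 := vK3_1 w
    have h2 := vK3_2 w
    generalize (∑ i, w i • vK3 i) = x at h0 h1 h2 ⊢
    rw [Fin.sum_univ_three] at hs
    have g0 := hw 0
    have g1 := hw 1
    have g2 := hw 2
    constructor
    · rintro (((h | h) | ((h | h) | h)) | (h | h))
      · rcases Base_out h with h | h <;> (first | (exfalso; linarith) | (left; linarith) | (right; linarith))
      · rcases h with ⟨⟨a, b, c, d⟩, e⟩ | ⟨⟨a, b, c, d⟩, e⟩ <;> (first | (exfalso; linarith) | (left; linarith) | (right; linarith))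
      · obtain ⟨⟨a, b, c, d⟩, e⟩ := h
        first | (exfalso; linarith) | (left; linarith) | (right; linarith)
      · obtain ⟨⟨a, b, c, d⟩, e⟩ := h
        first | (exfalso; linarith) | (left; linarith) | (right; linarith)
      · obtain ⟨⟨a, b, c, d⟩, e⟩ := h
        first | (exfalso; linarith) | (left; linarith) | (right; linarith)
      · obtain ⟨⟨a, b, c, d⟩, e⟩ := h
        first | (exfalso; linarith) | (left; linarith) | (right; linarith)
      · obtain ⟨a, b, c, d⟩ := h
        first | (exfalso; linarith) | (left; linarith) | (right; linarith)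
    · rintro (h | h)
      · refine Or.inr (Or.inl ⟨?_, ?_⟩)
        · refine ⟨by linarith, by linarith, by linarith, by linarith⟩
        · linarith
      · refine Or.inr (Or.inr ⟨?_, ?_, ?_, ?_⟩)
        · linarith
        · linarith
        · linarith
        · linarith

/-! ### from `M0` to `QL1` -/

noncomputable def vL1 : Fin 4 → (Fin 3 → ℝ) :=
  ![![1, 0, 0], ![1 / 2, 1, 0], ![1 / 2, 0, 1], ![2, 0, 0]]

theorem vL1_0 (w : Fin 4 → ℝ) : (∑ i, w i • vL1 i) 0 = w 0 + w 1 / 2 + w 2 / 2 + 2 * w 3 := by
  rw [Fin.sum_univ_four]; simp [vL1]; ring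
theorem vL1_1 (w : Fin 4 → ℝ) : (∑ i, w i • vL1 i) 1 = w 1 := by
  rw [Fin.sum_univ_four]; simp [vL1]
theorem vL1_2 (w : Fin 4 → ℝ) : (∑ i, w i • vL1 i) 2 = w 2 := by
  rw [Fin.sum_univ_four]; simp [vL1]

theorem collL1 : ElemCollapse M0 QL1 := by
  refine elemCollapse_simplex vL1 ?_ Finset.univ ⟨0, Finset.mem_univ _⟩ _ _ isPolyhedron_QL1 ?_ ?_
  · intro w w' hs h
    have h0 := congrFun h 0
    have h1 := congrFun h 1
    have h2 := congrFun h 2
    rw [vL1_0, vL1_0] at h0
    rw [vL1_1, vL1_1] at h1
    rw [vL1_2, vL1_2] at h2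
    rw [Fin.sum_univ_four, Fin.sum_univ_four] at hs
    funext i
    fin_cases i
    · show w 0 = w' 0
      linarith
    · exact h1
    · exact h2
    · show w 3 = w' 3
      linarith
  · have e : (fun w : Fin 4 → ℝ => ∑ i, w i • vL1 i) '' stdSimplex ℝ (Fin 4) =
        Tet 1 (1 / 2) 2 := by
      ext x
      constructor
      · rintro ⟨w, ⟨hw, hs⟩, rfl⟩
        have h0 := vL1_0 w
        have h1 := vL1_1 w
        have h2 := vL1_2 w
        show (∑ i, w i • vL1 i) ∈ _
        generalize (∑ i, w i • vL1 i) = x at h0 h1 h2 ⊢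
        rw [Fin.sum_univ_four] at hs
        have g0 := hw 0
        have g1 := hw 1
        have g2 := hw 2
        have g3 := hw 3
        refine ⟨by linarith, by linarith, by linarith, by linarith⟩
      · rintro ⟨a, b, c, d⟩
        refine ⟨![2 * (1 - (x 1 + x 2)) - (x 0 - 1 / 2 * (x 1 + x 2)), x 1, x 2,
          (x 0 - 1 / 2 * (x 1 + x 2)) - (1 - (x 1 + x 2))], ⟨?_, ?_⟩, ?_⟩
        · intro i
          fin_cases i
          · show 0 ≤ 2 * (1 - (x 1 + x 2)) - (x 0 - 1 / 2 * (x 1 + x 2))
            linarith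
          · exact a
          · exact b
          · show 0 ≤ (x 0 - 1 / 2 * (x 1 + x 2)) - (1 - (x 1 + x 2))
            linarith
        · rw [Fin.sum_univ_four]
          simp
          ring
        · funext i
          fin_cases i
          · refine (vL1_0 _).trans ?_
            simp
            ring
          · exact (vL1_1 _).trans rfl
          · exact (vL1_2 _).trans rfl
    rw [e]
    ext x
    simp only [M0, QL1, mem_union]
    constructor
    · rintro ((h | h) | h)
      · exact Or.inl (Or.inl (Or.inl h))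
      · exact Or.inl (Or.inr h)
      · exact Or.inr h
    · rintro (((h | ((h | h) | h)) | h) | h)
      · exact Or.inl (Or.inl h)
      · exact Or.inr h.1
      · exact Or.inr h.1
      · exact Or.inr h.1
      · exact Or.inl (Or.inr h)
      · exact Or.inr h
  · intro w hw
    obtain ⟨hw, hs⟩ := hw
    rw [exists_univ3]
    have h0 := vL1_0 w
    have h1 := vL1_1 w
    have h2 := vL1_2 w
    generalize (∑ i, w i • vL1 i) = x at h0 h1 h2 ⊢
    rw [Fin.sum_univ_four] at hs
    have g0 := hw 0
    have g1 := hw 1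
    have g2 := hw 2
    have g3 := hw 3
    constructor
    · rintro (((h | h) | ((h | h) | h)) | h)
      · rcases Base_out h with h | h <;> (first | (exfalso; linarith) | (left; linarith) | (right; left; linarith) | (right; right; linarith))
      · rcases h with ⟨⟨a, b, c, d⟩, e⟩ | ⟨⟨a, b, c, d⟩, e⟩ <;> (first | (exfalso; linarith) | (left; linarith) | (right; left; linarith) | (right; right; linarith))
      · obtain ⟨⟨a, b, c, d⟩, e⟩ := h
        first | (exfalso; linarith) | (left; linarith) | (right; left; linarith) | (right; right; linarith)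
      · obtain ⟨⟨a, b, c, d⟩, e⟩ := h
        first | (exfalso; linarith) | (left; linarith) | (right; left; linarith) | (right; right; linarith)
      · obtain ⟨⟨a, b, c, d⟩, e⟩ := h
        first | (exfalso; linarith) | (left; linarith) | (right; left; linarith) | (right; right; linarith)
      · obtain ⟨a, b, c, d⟩ := h
        first | (exfalso; linarith) | (left; linarith) | (right; left; linarith) | (right; right; linarith)
    · rintro (h | h | h)
      · refine Or.inl (Or.inr (Or.inr ⟨?_, ?_⟩))
        · refine ⟨by linarith, by linarith, by linarith, by linarith⟩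
        · linarith
      · refine Or.inl (Or.inr (Or.inl (Or.inl ⟨?_, ?_⟩)))
        · refine ⟨by linarith, by linarith, by linarith, by linarith⟩
        · linarith
      · refine Or.inl (Or.inr (Or.inl (Or.inr ⟨?_, ?_⟩)))
        · refine ⟨by linarith, by linarith, by linarith, by linarith⟩
        · linarith

/-! ### from `QL1` to `QL2` -/

noncomputable def vL2 : Fin 4 → (Fin 3 → ℝ) :=
  ![![-1, 0, 0], ![1 / 2, 0, 1], ![1 / 2, 1, 0], ![0, 0, 0]]

theorem vL2_0 (w : Fin 4 → ℝ) : (∑ i, w i • vL2 i) 0 = -w 0 + w 1 / 2 + w 2 / 2 := by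
  rw [Fin.sum_univ_four]; simp [vL2]; ring
theorem vL2_1 (w : Fin 4 → ℝ) : (∑ i, w i • vL2 i) 1 = w 2 := by
  rw [Fin.sum_univ_four]; simp [vL2]
theorem vL2_2 (w : Fin 4 → ℝ) : (∑ i, w i • vL2 i) 2 = w 1 := by
  rw [Fin.sum_univ_four]; simp [vL2]

theorem collL2 : ElemCollapse QL1 QL2 := by
  refine elemCollapse_simplex vL2 ?_ {0, 1} ⟨0, by simp⟩ _ _ isPolyhedron_QL2 ?_ ?_
  · intro w w' hs h
    have h0 := congrFun h 0
    have h1 := congrFun h 1
    have h2 := congrFun h 2
    rw [vL2_0, vL2_0] at h0
    rw [vL2_1, vL2_1] at h1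
    rw [vL2_2, vL2_2] at h2
    rw [Fin.sum_univ_four, Fin.sum_univ_four] at hs
    funext i
    fin_cases i
    · show w 0 = w' 0
      linarith
    · exact h2
    · exact h1
    · show w 3 = w' 3
      linarith
  · have e : (fun w : Fin 4 → ℝ => ∑ i, w i • vL2 i) '' stdSimplex ℝ (Fin 4) =
        Tet (-1) (1 / 2) 0 := by
      ext x
      constructor
      · rintro ⟨w, ⟨hw, hs⟩, rfl⟩
        have h0 := vL2_0 w
        have h1 := vL2_1 w
        have h2 := vL2_2 w
        show (∑ i, w i • vL2 i) ∈ _
        generalize (∑ i, w i • vL2 i) = x at h0 h1 h2 ⊢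
        rw [Fin.sum_univ_four] at hs
        have g0 := hw 0
        have g1 := hw 1
        have g2 := hw 2
        have g3 := hw 3
        refine ⟨by linarith, by linarith, by linarith, by linarith⟩
      · rintro ⟨a, b, c, d⟩
        refine ⟨![-(x 0 - 1 / 2 * (x 1 + x 2)), x 2, x 1,
          (1 - (x 1 + x 2)) + (x 0 - 1 / 2 * (x 1 + x 2))], ⟨?_, ?_⟩, ?_⟩
        · intro i
          fin_cases i
          · show 0 ≤ -(x 0 - 1 / 2 * (x 1 + x 2))
            linarith
          · exact b
          · exact a
          · show 0 ≤ (1 - (x 1 + x 2)) + (x 0 - 1 / 2 * (x 1 + x 2))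
            linarith
        · rw [Fin.sum_univ_four]
          simp
          ring
        · funext i
          fin_cases i
          · refine (vL2_0 _).trans ?_
            simp
            ring
          · exact (vL2_1 _).trans rfl
          · exact (vL2_2 _).trans rfl
    rw [e]
    ext x
    simp only [QL1, QL2, mem_union]
    constructor
    · rintro (h | h)
      · exact Or.inl (Or.inl h)
      · exact Or.inr h
    · rintro ((h | h | h) | h)
      · exact Or.inl h
      · exact Or.inr h.1
      · exact Or.inr h.1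
      · exact Or.inr h
  · intro w hw
    obtain ⟨hw, hs⟩ := hw
    rw [exists_01]
    have h0 := vL2_0 w
    have h1 := vL2_1 w
    have h2 := vL2_2 w
    generalize (∑ i, w i • vL2 i) = x at h0 h1 h2 ⊢
    rw [Fin.sum_univ_four] at hs
    have g0 := hw 0
    have g1 := hw 1
    have g2 := hw 2
    have g3 := hw 3
    constructor
    · rintro (((h | h) | ((h | h) | h)) | (h | h))
      · rcases Base_out h with h | h <;> (first | (exfalso; linarith) | (left; linarith) | (right; linarith))
      · rcases h with ⟨⟨a, b, c, d⟩, e⟩ | ⟨⟨a, b, c, d⟩, e⟩ <;> (first | (exfalso; linarith) | (left; linarith) | (right; linarith))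
      · obtain ⟨⟨a, b, c, d⟩, e⟩ := h
        first | (exfalso; linarith) | (left; linarith) | (right; linarith)
      · obtain ⟨⟨a, b, c, d⟩, e⟩ := h
        first | (exfalso; linarith) | (left; linarith) | (right; linarith)
      · obtain ⟨⟨a, b, c, d⟩, e⟩ := h
        first | (exfalso; linarith) | (left; linarith) | (right; linarith)
      · obtain ⟨⟨a, b, c, d⟩, e⟩ := h
        first | (exfalso; linarith) | (left; linarith) | (right; linarith)
      · obtain ⟨⟨a, b, c, d⟩, e⟩ := h
        first | (exfalso; linarith) | (left; linarith) | (right; linarith)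
    · rintro (h | h)
      · refine Or.inr (Or.inl ⟨?_, ?_⟩)
        · refine ⟨by linarith, by linarith, by linarith, by linarith⟩
        · linarith
      · refine Or.inr (Or.inr ⟨?_, ?_⟩)
        · refine ⟨by linarith, by linarith, by linarith, by linarith⟩
        · linarith

/-! ### from `QL2` to `QL3` -/

noncomputable def vL3 : Fin 3 → (Fin 3 → ℝ) := ![![-1, 0, 0], ![1 / 2, 1, 0], ![0, 0, 0]]

theorem vL3_0 (w : Fin 3 → ℝ) : (∑ i, w i • vL3 i) 0 = -w 0 + w 1 / 2 := by
  rw [Fin.sum_univ_three]; simp [vL3]; ring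
theorem vL3_1 (w : Fin 3 → ℝ) : (∑ i, w i • vL3 i) 1 = w 1 := by
  rw [Fin.sum_univ_three]; simp [vL3]
theorem vL3_2 (w : Fin 3 → ℝ) : (∑ i, w i • vL3 i) 2 = 0 := by
  rw [Fin.sum_univ_three]; simp [vL3]

theorem collL3 : ElemCollapse QL2 QL3 := by
  refine elemCollapse_simplex vL3 ?_ {0, 1} ⟨0, by simp⟩ _ _ isPolyhedron_QL3 ?_ ?_
  · intro w w' hs h
    have h0 := congrFun h 0
    have h1 := congrFun h 1
    rw [vL3_0, vL3_0] at h0
    rw [vL3_1, vL3_1] at h1
    rw [Fin.sum_univ_three, Fin.sum_univ_three] at hs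
    funext i
    fin_cases i
    · show w 0 = w' 0
      linarith
    · exact h1
    · show w 2 = w' 2
      linarith
  · have e : (fun w : Fin 3 → ℝ => ∑ i, w i • vL3 i) '' stdSimplex ℝ (Fin 3) =
        FZ (-1) (1 / 2) 0 := by
      ext x
      constructor
      · rintro ⟨w, ⟨hw, hs⟩, rfl⟩
        have h0 := vL3_0 w
        have h1 := vL3_1 w
        have h2 := vL3_2 w
        show (∑ i, w i • vL3 i) ∈ _
        generalize (∑ i, w i • vL3 i) = x at h0 h1 h2 ⊢
        rw [Fin.sum_univ_three] at hs
        have g0 := hw 0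
        have g1 := hw 1
        have g2 := hw 2
        refine ⟨?_, h2⟩
        refine ⟨by linarith, by linarith, by linarith, by linarith⟩
      · rintro ⟨⟨a, b, c, d⟩, e⟩
        refine ⟨![-(x 0 - 1 / 2 * (x 1 + x 2)), x 1,
          (1 - (x 1 + x 2)) + (x 0 - 1 / 2 * (x 1 + x 2))], ⟨?_, ?_⟩, ?_⟩
        · intro i
          fin_cases i
          · show 0 ≤ -(x 0 - 1 / 2 * (x 1 + x 2))
            linarith
          · exact a
          · show 0 ≤ (1 - (x 1 + x 2)) + (x 0 - 1 / 2 * (x 1 + x 2))
            linarith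
        · rw [Fin.sum_univ_three]
          simp
          linarith
        · funext i
          fin_cases i
          · refine (vL3_0 _).trans ?_
            simp
            linarith
          · exact (vL3_1 _).trans rfl
          · exact (vL3_2 _).trans e.symm
    rw [e]
    ext x
    simp only [QL2, QL3, mem_union]
    constructor
    · rintro (h | (h | h))
      · exact Or.inl (Or.inl h)
      · exact Or.inl (Or.inr (Or.inl h))
      · exact Or.inr h
    · rintro ((h | (h | h)) | h)
      · exact Or.inl h
      · exact Or.inr (Or.inl h)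
      · refine Or.inr (Or.inr ?_)
        obtain ⟨h1, h2, h3, h4⟩ := h
        refine ⟨?_, h2⟩
        refine ⟨by linarith, by linarith, by linarith, by linarith⟩
      · exact Or.inr (Or.inr h)
  · intro w hw
    obtain ⟨hw, hs⟩ := hw
    rw [exists_01']
    have h0 := vL3_0 w
    have h1 := vL3_1 w
    have h2 := vL3_2 w
    generalize (∑ i, w i • vL3 i) = x at h0 h1 h2 ⊢
    rw [Fin.sum_univ_three] at hs
    have g0 := hw 0
    have g1 := hw 1
    have g2 := hw 2
    constructor
    · rintro (((h | h) | ((h | h) | h)) | (h | h))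
      · rcases Base_out h with h | h <;> (first | (exfalso; linarith) | (left; linarith) | (right; linarith))
      · rcases h with ⟨⟨a, b, c, d⟩, e⟩ | ⟨⟨a, b, c, d⟩, e⟩ <;> (first | (exfalso; linarith) | (left; linarith) | (right; linarith))
      · obtain ⟨⟨a, b, c, d⟩, e⟩ := h
        first | (exfalso; linarith) | (left; linarith) | (right; linarith)
      · obtain ⟨⟨a, b, c, d⟩, e⟩ := h
        first | (exfalso; linarith) | (left; linarith) | (right; linarith)
      · obtain ⟨⟨a, b, c, d⟩, e⟩ := h
        first | (exfalso; linarith) | (left; linarith) | (right; linarith)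
      · obtain ⟨⟨a, b, c, d⟩, e⟩ := h
        first | (exfalso; linarith) | (left; linarith) | (right; linarith)
      · obtain ⟨a, b, c, d⟩ := h
        first | (exfalso; linarith) | (left; linarith) | (right; linarith)
    · rintro (h | h)
      · refine Or.inr (Or.inl ⟨?_, ?_⟩)
        · refine ⟨by linarith, by linarith, by linarith, by linarith⟩
        · linarith
      · refine Or.inr (Or.inr ⟨?_, ?_, ?_, ?_⟩)
        · linarith
        · linarith
        · linarith
        · linarith

end Pool.Agent.Helper31.GZ
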