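import Mathlib
import Pool.Agent.Helper31.GZ.Defs
import Pool.Agent.Helper31.GZ.Simplex
import Pool.Agent.Helper31.GZ.Tetra
import Pool.Agent.Helper31.GZ.Neck
import Pool.Agent.Helper31.GZ.Example
import Pool.Agent.Helper31.GZ.Steps
import Pool.Agent.Helper31.GZ.Obstruct

set_option autoImplicit false

namespace Pool.Agent.Helper31.GZ

open Set

noncomputable def pK : Params where
  α := ![-5, -3, -1, 2]
  m := ![-4, -2, 1 / 2, 3]
  β := ![-3, -1, 1, 4]
  hm1 := by
    intro i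
    fin_cases i <;> simp <;> norm_num
  hm2 := by
    intro i
    fin_cases i <;> simp <;> norm_num
  h01 := by simp
  h12 := by simp
  h23 := by simp

noncomputable def pL : Params where
  α := ![-5, -3, 0, 2]
  m := ![-4, -2, 1 / 2, 3]
  β := ![-3, -1, 2, 4]
  hm1 := by
    intro i
    fin_cases i <;> simp <;> norm_num
  hm2 := by
    intro i
    fin_cases i <;> simp <;> norm_num
  h01 := by simp
  h12 := by simp
  h23 := by simp

theorem mem_Neck_pK {x : Fin 3 → ℝ} : x ∈ Neck pK ↔ (x ∈ Sph (-5) (-4) (-3) ∨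
    x ∈ Sph (-3) (-2) (-1) ∨ x ∈ Sph (-1) (1 / 2) 1 ∨ x ∈ Sph 2 3 4) ∨ x ∈ Ax (-5) 4 := by
  have : (∃ i : Fin 4, x ∈ Sph (pK.α i) (pK.m i) (pK.β i)) ↔ (x ∈ Sph (-5) (-4) (-3) ∨
    x ∈ Sph (-3) (-2) (-1) ∨ x ∈ Sph (-1) (1 / 2) 1 ∨ x ∈ Sph 2 3 4) := by
    simp only [Fin.exists_fin_succ, pK]
    simp
  rw [← this, Neck, mem_union, mem_iUnion]
  rfl

theorem mem_Neck_pL {x : Fin 3 → ℝ} : x ∈ Neck pL ↔ (x ∈ Sph (-5) (-4) (-3) ∨
    x ∈ Sph (-3) (-2) (-1) ∨ x ∈ Sph 0 (1 / 2) 2 ∨ x ∈ Sph 2 3 4) ∨ x ∈ Ax (-5) 4 := by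
  have : (∃ i : Fin 4, x ∈ Sph (pL.α i) (pL.m i) (pL.β i)) ↔ (x ∈ Sph (-5) (-4) (-3) ∨
    x ∈ Sph (-3) (-2) (-1) ∨ x ∈ Sph 0 (1 / 2) 2 ∨ x ∈ Sph 2 3 4) := by
    simp only [Fin.exists_fin_succ, pL]
    simp
  rw [← this, Neck, mem_union, mem_iUnion]
  rfl

theorem Ax_sub {x : Fin 3 → ℝ} {α m β : ℝ} (h1 : x 1 = 0) (h2 : x 2 = 0) (h3 : α ≤ x 0)
    (h4 : x 0 ≤ β) : x ∈ Sph α m β := by
  rw [eq_pt h1 h2]
  exact pt_mem_Sph h3 h4

theorem QK3_eq : QK3 = Neck pK := by
  ext x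
  rw [mem_Neck_pK]
  constructor
  · rintro (((h | h) | ((h | h) | h)) | (h | h))
    · rcases h with (h | h) | h
      · exact Or.inl (Or.inl h)
      · exact Or.inl (Or.inr (Or.inl h))
      · exact Or.inl (Or.inr (Or.inr (Or.inr h)))
    · refine Or.inl (Or.inr (Or.inr (Or.inl ?_)))
      rcases h with ⟨⟨a, b, c, d⟩, e⟩ | ⟨⟨a, b, c, d⟩, e⟩
      · refine ⟨?_, Or.inl e⟩
        refine ⟨by linarith, by linarith, by linarith, by linarith⟩
      · refine ⟨?_, Or.inr (Or.inl e)⟩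
        refine ⟨by linarith, by linarith, by linarith, by linarith⟩
    · refine Or.inl (Or.inr (Or.inr (Or.inl ?_)))
      obtain ⟨⟨a, b, c, d⟩, e⟩ := h
      refine ⟨?_, Or.inl e⟩
      refine ⟨by linarith, by linarith, by linarith, by linarith⟩
    · refine Or.inl (Or.inr (Or.inr (Or.inl ?_)))
      obtain ⟨⟨a, b, c, d⟩, e⟩ := h
      refine ⟨?_, Or.inr (Or.inl e)⟩
      refine ⟨by linarith, by linarith, by linarith, by linarith⟩
    · refine Or.inl (Or.inr (Or.inr (Or.inl ?_)))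
      obtain ⟨⟨a, b, c, d⟩, e⟩ := h
      refine ⟨?_, Or.inr (Or.inr (Or.inl ?_))⟩
      · refine ⟨by linarith, by linarith, by linarith, by linarith⟩
      · linarith
    · refine Or.inl (Or.inr (Or.inr (Or.inl ?_)))
      obtain ⟨⟨a, b, c, d⟩, e⟩ := h
      refine ⟨?_, Or.inr (Or.inr (Or.inr ?_))⟩
      · refine ⟨by linarith, by linarith, by linarith, by linarith⟩
      · linarith
    · obtain ⟨a, b, c, d⟩ := h
      exact Or.inr ⟨a, b, by linarith, by linarith⟩
  · rintro ((h | h | h | h) | h)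
    · exact Or.inl (Or.inl (Or.inl (Or.inl (Or.inl h))))
    · exact Or.inl (Or.inl (Or.inl (Or.inl (Or.inr h))))
    · obtain ⟨⟨a, b, c, d⟩, e | e | e | e⟩ := h
      · rcases le_total (x 0 - 1 / 2 * (x 1 + x 2)) 0 with h | h
        · refine Or.inl (Or.inr (Or.inl (Or.inl ⟨?_, e⟩)))
          refine ⟨by linarith, by linarith, by linarith, by linarith⟩
        · refine Or.inl (Or.inl (Or.inr (Or.inl ⟨?_, e⟩)))
          refine ⟨by linarith, by linarith, by linarith, by linarith⟩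
      · rcases le_total (x 0 - 1 / 2 * (x 1 + x 2)) 0 with h | h
        · refine Or.inl (Or.inr (Or.inl (Or.inr ⟨?_, e⟩)))
          refine ⟨by linarith, by linarith, by linarith, by linarith⟩
        · refine Or.inl (Or.inl (Or.inr (Or.inr ⟨?_, e⟩)))
          refine ⟨by linarith, by linarith, by linarith, by linarith⟩
      · refine Or.inl (Or.inr (Or.inr ⟨?_, e⟩))
        refine ⟨by linarith, by linarith, by linarith, by linarith⟩
      · refine Or.inr (Or.inl ⟨?_, ?_⟩)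
        · refine ⟨by linarith, by linarith, by linarith, by linarith⟩
        · linarith
    · exact Or.inl (Or.inl (Or.inl (Or.inr h)))
    · obtain ⟨a, b, c, d⟩ := h
      rcases le_total (x 0) (-3) with h1 | h1
      · exact Or.inl (Or.inl (Or.inl (Or.inl (Or.inl (Ax_sub a b c h1)))))
      rcases le_total (x 0) (-1) with h2 | h2
      · exact Or.inl (Or.inl (Or.inl (Or.inl (Or.inr (Ax_sub a b h1 h2)))))
      rcases le_total (x 0) 0 with h3 | h3
      · refine Or.inl (Or.inr (Or.inl (Or.inl ⟨?_, a⟩)))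
        refine ⟨by linarith, by linarith, by linarith, by linarith⟩
      rcases le_total (x 0) 1 with h4 | h4
      · refine Or.inl (Or.inl (Or.inr (Or.inl ⟨?_, a⟩)))
        refine ⟨by linarith, by linarith, by linarith, by linarith⟩
      rcases le_total (x 0) 2 with h5 | h5
      · exact Or.inr (Or.inr ⟨a, b, h4, h5⟩)
      · exact Or.inl (Or.inl (Or.inl (Or.inr (Ax_sub a b h5 d))))

theorem QL3_eq : QL3 = Neck pL := by
  ext x
  rw [mem_Neck_pL]
  constructor
  · rintro (((h | h) | ((h | h) | h)) | (h | h))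
    · rcases h with (h | h) | h
      · exact Or.inl (Or.inl h)
      · exact Or.inl (Or.inr (Or.inl h))
      · exact Or.inl (Or.inr (Or.inr (Or.inr h)))
    · refine Or.inl (Or.inr (Or.inr (Or.inl ?_)))
      rcases h with ⟨⟨a, b, c, d⟩, e⟩ | ⟨⟨a, b, c, d⟩, e⟩
      · refine ⟨?_, Or.inl e⟩
        refine ⟨by linarith, by linarith, by linarith, by linarith⟩
      · refine ⟨?_, Or.inr (Or.inl e)⟩
        refine ⟨by linarith, by linarith, by linarith, by linarith⟩
    · refine Or.inl (Or.inr (Or.inr (Or.inl ?_)))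
      obtain ⟨⟨a, b, c, d⟩, e⟩ := h
      refine ⟨?_, Or.inl e⟩
      refine ⟨by linarith, by linarith, by linarith, by linarith⟩
    · refine Or.inl (Or.inr (Or.inr (Or.inl ?_)))
      obtain ⟨⟨a, b, c, d⟩, e⟩ := h
      refine ⟨?_, Or.inr (Or.inl e)⟩
      refine ⟨by linarith, by linarith, by linarith, by linarith⟩
    · refine Or.inl (Or.inr (Or.inr (Or.inl ?_)))
      obtain ⟨⟨a, b, c, d⟩, e⟩ := h
      refine ⟨?_, Or.inr (Or.inr (Or.inr ?_))⟩
      · refine ⟨by linarith, by linarith, by linarith, by linarith⟩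
      · linarith
    · refine Or.inl (Or.inr (Or.inr (Or.inl ?_)))
      obtain ⟨⟨a, b, c, d⟩, e⟩ := h
      refine ⟨?_, Or.inr (Or.inr (Or.inl ?_))⟩
      · refine ⟨by linarith, by linarith, by linarith, by linarith⟩
      · linarith
    · obtain ⟨a, b, c, d⟩ := h
      exact Or.inr ⟨a, b, by linarith, by linarith⟩
  · rintro ((h | h | h | h) | h)
    · exact Or.inl (Or.inl (Or.inl (Or.inl (Or.inl h))))
    · exact Or.inl (Or.inl (Or.inl (Or.inl (Or.inr h))))
    · obtain ⟨⟨a, b, c, d⟩, e | e | e | e⟩ := h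
      · rcases le_total (x 0 - 1 / 2 * (x 1 + x 2)) (1 - (x 1 + x 2)) with h | h
        · refine Or.inl (Or.inl (Or.inr (Or.inl ⟨?_, e⟩)))
          refine ⟨by linarith, by linarith, by linarith, by linarith⟩
        · refine Or.inl (Or.inr (Or.inl (Or.inl ⟨?_, e⟩)))
          refine ⟨by linarith, by linarith, by linarith, by linarith⟩
      · rcases le_total (x 0 - 1 / 2 * (x 1 + x 2)) (1 - (x 1 + x 2)) with h | h
        · refine Or.inl (Or.inl (Or.inr (Or.inr ⟨?_, e⟩)))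
          refine ⟨by linarith, by linarith, by linarith, by linarith⟩
        · refine Or.inl (Or.inr (Or.inl (Or.inr ⟨?_, e⟩)))
          refine ⟨by linarith, by linarith, by linarith, by linarith⟩
      · refine Or.inr (Or.inl ⟨?_, ?_⟩)
        · refine ⟨by linarith, by linarith, by linarith, by linarith⟩
        · linarith
      · refine Or.inl (Or.inr (Or.inr ⟨?_, e⟩))
        refine ⟨by linarith, by linarith, by linarith, by linarith⟩
    · exact Or.inl (Or.inl (Or.inl (Or.inr h)))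
    · obtain ⟨a, b, c, d⟩ := h
      rcases le_total (x 0) (-3) with h1 | h1
      · exact Or.inl (Or.inl (Or.inl (Or.inl (Or.inl (Ax_sub a b c h1)))))
      rcases le_total (x 0) (-1) with h2 | h2
      · exact Or.inl (Or.inl (Or.inl (Or.inl (Or.inr (Ax_sub a b h1 h2)))))
      rcases le_total (x 0) 0 with h3 | h3
      · exact Or.inr (Or.inr ⟨a, b, h2, h3⟩)
      rcases le_total (x 0) 1 with h4 | h4
      · refine Or.inl (Or.inl (Or.inr (Or.inl ⟨?_, a⟩)))
        refine ⟨by linarith, by linarith, by linarith, by linarith⟩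
      rcases le_total (x 0) 2 with h5 | h5
      · refine Or.inl (Or.inr (Or.inl (Or.inl ⟨?_, a⟩)))
        refine ⟨by linarith, by linarith, by linarith, by linarith⟩
      · exact Or.inl (Or.inl (Or.inl (Or.inr (Ax_sub a b h5 d))))

theorem collapses_K : Collapses M0 (Neck pK) := by
  rw [← QK3_eq]
  exact ((Relation.ReflTransGen.single collK1).tail collK2).tail collK3

theorem collapses_L : Collapses M0 (Neck pL) := by
  rw [← QL3_eq]
  exact ((Relation.ReflTransGen.single collL1).tail collL2).tail collL3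

theorem deformation_of_collapses {P Q : Set (Fin 3 → ℝ)} (h : Collapses P Q) :
    Deformation P Q := by
  unfold Collapses at h
  unfold Deformation
  induction h with
  | refl => exact Relation.ReflTransGen.refl
  | tail _ h2 ih => exact ih.tail (Or.inl h2)

theorem deformation_of_expansions {P Q : Set (Fin 3 → ℝ)} (h : Collapses P Q) :
    Deformation Q P := by
  unfold Collapses at h
  unfold Deformation
  induction h with
  | refl => exact Relation.ReflTransGen.refl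
  | tail _ h2 ih => exact Relation.ReflTransGen.head (Or.inr h2) ih

theorem deformation_KL : Deformation (Neck pK) (Neck pL) :=
  (deformation_of_expansions collapses_K).trans (deformation_of_collapses collapses_L)

theorem isPolyhedron_Neck_K : IsPolyhedron (Neck pK) := by
  rw [← QK3_eq]; exact isPolyhedron_QK3

theorem isPolyhedron_Neck_L : IsPolyhedron (Neck pL) := by
  rw [← QL3_eq]; exact isPolyhedron_QL3

theorem isConnected_Sph {α m β : ℝ} (h : α < β) : IsConnected (Sph α m β) := by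
  obtain ⟨e⟩ := Sph_homeo (m := m) h
  have hr : 1 < Module.rank ℝ E3 := by
    rw [← Module.finrank_eq_rank]
    simp [E3]
  have h1 : IsConnected (Metric.sphere (0 : E3) 1) := isConnected_sphere hr 0 zero_le_one
  have : ConnectedSpace S2 := isConnected_iff_connectedSpace.1 h1
  have h2 : Sph α m β = range (fun s : S2 => (e.symm s : Fin 3 → ℝ)) := by
    ext x
    constructor
    · intro hx
      exact ⟨e ⟨x, hx⟩, by simp⟩
    · rintro ⟨s, rfl⟩
      exact (e.symm s).2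
  rw [h2]
  exact isConnected_range (continuous_subtype_val.comp e.symm.continuous)

theorem isConnected_Neck (p : Params) : IsConnected (Neck p) := by
  have h03 : p.α 0 < p.β 3 := by
    have h1 := p.ordered 0 3 (by decide)
    linarith [p.ab 0, p.ab 3]
  have hAx : IsPreconnected (Ax (p.α 0) (p.β 3)) := (isCell_Ax h03.le).convex.isPreconnected
  have e : Neck p = ⋃ i, (Sph (p.α i) (p.m i) (p.β i) ∪ Ax (p.α 0) (p.β 3)) := by
    rw [← iUnion_union]
    rfl
  refine ⟨⟨pt (p.α 0), pt_mem_Neck p le_rfl h03.le⟩, ?_⟩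
  rw [e]
  refine isPreconnected_iUnion ⟨pt (p.α 0), mem_iInter.2 fun i => Or.inr ?_⟩ fun i => ?_
  · exact ⟨rfl, rfl, le_rfl, h03.le⟩
  · have h1 : pt (p.α i) ∈ Sph (p.α i) (p.m i) (p.β i) := pt_mem_Sph le_rfl (p.ab i).le
    have h2 := Neck_range p (Sph_subset_Neck p i h1)
    exact IsPreconnected.union (pt (p.α i)) h1 ⟨rfl, rfl, h2.1, h2.2⟩
      (isConnected_Sph (p.ab i)).isPreconnected hAx

/-- a finite union of simplices of dimension at most two -/
def TwoD (P : Set (Fin 3 → ℝ)) : Prop := ∃ 𝒞 : Set (Set (Fin 3 → ℝ)), 𝒞.Finite ∧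
  (∀ C ∈ 𝒞, ∃ S : Finset (Fin 3 → ℝ), S.card ≤ 3 ∧ C = convexHull ℝ (S : Set (Fin 3 → ℝ))) ∧
  P = ⋃₀ 𝒞

theorem TwoD.union {P Q : Set (Fin 3 → ℝ)} (hP : TwoD P) (hQ : TwoD Q) : TwoD (P ∪ Q) := by
  obtain ⟨𝒞, h1, h2, rfl⟩ := hP
  obtain ⟨𝒟, h3, h4, rfl⟩ := hQ
  refine ⟨𝒞 ∪ 𝒟, h1.union h3, ?_, (sUnion_union 𝒞 𝒟).symm⟩
  rintro C (hC | hC)
  · exact h2 C hC
  · exact h4 C hC

theorem twoD_facet {α m β : ℝ} (h : α < β) (i : Fin 4) :
    TwoD {x | x ∈ Tet α m β ∧ bary α m β x i = 0} := by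
  classical
  refine ⟨{{x | x ∈ Tet α m β ∧ bary α m β x i = 0}}, finite_singleton _, ?_, by simp⟩
  rintro C rfl
  refine ⟨(Finset.univ.erase i).image (vert α m β), ?_, ?_⟩
  · refine Finset.card_image_le.trans ?_
    rw [Finset.card_erase_of_mem (Finset.mem_univ i)]
    simp
  · rw [facet_eq h, face_eq]
    congr 1
    rw [Finset.coe_image]
    congr 1
    ext j
    simp

theorem twoD_Sph {α m β : ℝ} (h : α < β) : TwoD (Sph α m β) := by
  have h' : β - α ≠ 0 := by linarith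
  have e1 : FY α m β = {x | x ∈ Tet α m β ∧ bary α m β x 2 = 0} := by
    ext x; simp [FY, bary]
  have e2 : FZ α m β = {x | x ∈ Tet α m β ∧ bary α m β x 3 = 0} := by
    ext x; simp [FZ, bary]
  have e3 : FL α m β = {x | x ∈ Tet α m β ∧ bary α m β x 1 = 0} := by
    ext x; simp [FL, bary, h']
  have e4 : FR α m β = {x | x ∈ Tet α m β ∧ bary α m β x 0 = 0} := by
    ext x; simp [FR, bary, h']
  rw [Sph_eq, e1, e2, e3, e4]
  exact (((twoD_facet h 2).union (twoD_facet h 3)).union (twoD_facet h 1)).union (twoD_facet h 0)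

theorem twoD_Ax {a b : ℝ} (h : a ≤ b) : TwoD (Ax a b) := by
  classical
  refine ⟨{Ax a b}, finite_singleton _, ?_, by simp⟩
  rintro C rfl
  obtain ⟨S, hS, hS'⟩ := isCell_Ax h
  refine ⟨{pt a, pt b}, (Finset.card_le_two).trans (by norm_num), ?_⟩
  rw [Finset.coe_pair]
  apply Subset.antisymm
  · rintro x ⟨h1, h2, h3, h4⟩
    rw [convexHull_pair]
    rcases h.eq_or_lt with rfl | hab
    · have : x 0 = a := le_antisymm h4 h3
      rw [segment_same, eq_pt h1 h2, this]
      rfl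
    · have hba : (0 : ℝ) < b - a := by linarith
      refine ⟨(b - x 0) / (b - a), (x 0 - a) / (b - a), div_nonneg (by linarith) hba.le,
        div_nonneg (by linarith) hba.le, ?_, ?_⟩
      · rw [← add_div, div_eq_one_iff_eq hba.ne']
        ring
      · funext j
        fin_cases j
        · simp [pt]
          field_simp
          ring
        · simp [pt, h1]
        · simp [pt, h2]
  · refine convexHull_min ?_ (isCell_Ax h).convex
    rintro x (rfl | rfl)
    · exact ⟨rfl, rfl, le_rfl, h⟩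
    · exact ⟨rfl, rfl, h, le_rfl⟩

theorem twoD_Neck (p : Params) : TwoD (Neck p) := by
  have h03 : p.α 0 < p.β 3 := by
    have h1 := p.ordered 0 3 (by decide)
    linarith [p.ab 0, p.ab 3]
  have e : Neck p = ((Sph (p.α 0) (p.m 0) (p.β 0) ∪ Sph (p.α 1) (p.m 1) (p.β 1)) ∪
      (Sph (p.α 2) (p.m 2) (p.β 2) ∪ Sph (p.α 3) (p.m 3) (p.β 3))) ∪ Ax (p.α 0) (p.β 3) := by
    have e1 : (⋃ i, Sph (p.α i) (p.m i) (p.β i)) =
        ((Sph (p.α 0) (p.m 0) (p.β 0) ∪ Sph (p.α 1) (p.m 1) (p.β 1)) ∪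
        (Sph (p.α 2) (p.m 2) (p.β 2) ∪ Sph (p.α 3) (p.m 3) (p.β 3))) := by
      ext x
      simp only [mem_iUnion, mem_union, Fin.exists_fin_succ]
      simp
      tauto
    rw [← e1]
    rfl
  rw [e]
  exact (((twoD_Sph (p.ab 0)).union (twoD_Sph (p.ab 1))).union
    ((twoD_Sph (p.ab 2)).union (twoD_Sph (p.ab 3)))).union (twoD_Ax h03.le)

theorem isTwoDimensional_Neck (p : Params) : IsTwoDimensional (Neck p) := by
  refine ⟨twoD_Neck p, pt (p.α 0), pt (p.β 0), ![p.m 0, 1, 0], ?_, ?_⟩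
  · rw [affineIndependent_iff_not_collinear_set]
    intro h
    rw [collinear_iff_of_mem (p₀ := pt (p.α 0)) (by simp)] at h
    obtain ⟨v, hv⟩ := h
    obtain ⟨r1, h1⟩ := hv (pt (p.β 0)) (by simp)
    obtain ⟨r2, h2⟩ := hv ![p.m 0, 1, 0] (by simp)
    have a0 := congrFun h1 0
    have a1 := congrFun h1 1
    have b1 := congrFun h2 1
    simp [pt] at a0 a1 b1
    have hv1 : v 1 ≠ 0 := by
      intro h0
      rw [h0, mul_zero] at b1
      exact one_ne_zero b1
    have hr : r1 = 0 := by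
      rcases a1 with h | h
      · exact h
      · exact absurd h hv1
    rw [hr] at a0
    have := p.ab 0
    linarith
  · have hF : convexHull ℝ {pt (p.α 0), pt (p.β 0), ![p.m 0, 1, 0]} ⊆
        FZ (p.α 0) (p.m 0) (p.β 0) := by
      refine convexHull_min ?_ (isCell_FZ (p.ab 0)).convex
      have h1 := p.hm1 0
      have h2 := p.hm2 0
      rintro x (rfl | rfl | rfl)
      · refine ⟨⟨by simp [pt], by simp [pt], ?_, ?_⟩, by simp [pt]⟩
        · simp [pt]
        · simp [pt]; linarith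
      · refine ⟨⟨by simp [pt], by simp [pt], ?_, ?_⟩, by simp [pt]⟩
        · simp [pt]; linarith
        · simp [pt]
      · refine ⟨⟨by simp, by simp, ?_, ?_⟩, by simp⟩
        · simp
        · simp
    refine hF.trans ?_
    refine Subset.trans ?_ (Sph_subset_Neck p 0)
    rintro x ⟨h1, h2⟩
    exact ⟨h1, Or.inr (Or.inl h2)⟩

/-- `K × I` does not collapse to a copy of `L`. -/
theorem no_collapse_K : ¬ ∃ L' : Set ((Fin 3 → ℝ) × ℝ), PLHomeo (Neck pL) L' ∧
    Collapses (Neck pK ×ˢ Icc (0 : ℝ) 1) L' := by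
  rintro ⟨L', ⟨g, hg, hbij, -⟩, hcol⟩
  have hret := hcol.defRet
  have hsub : L' ⊆ Neck pK ×ˢ Icc (0 : ℝ) 1 := hret.1
  rw [← hbij.image_eq] at hret hsub
  obtain ⟨σ, hσ, h⟩ := exists_matching pK pL g (fun k => isPolyhedron_Sph (pL.ab k)) hg hbij.injOn
    (fun y hy => (hsub ⟨y, hy, rfl⟩).1) hret
  -- the touching points
  have t0 : pt (-3) ∈ Sph (pL.α 0) (pL.m 0) (pL.β 0) := by
    apply pt_mem_Sph <;> simp [pL] <;> norm_num
  have t1 : pt (-3) ∈ Sph (pL.α 1) (pL.m 1) (pL.β 1) := by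
    apply pt_mem_Sph <;> simp [pL] <;> norm_num
  have t2 : pt 2 ∈ Sph (pL.α 2) (pL.m 2) (pL.β 2) := by
    apply pt_mem_Sph <;> simp [pL]
  have t3 : pt 2 ∈ Sph (pL.α 3) (pL.m 3) (pL.β 3) := by
    apply pt_mem_Sph <;> simp [pL] <;> norm_num
  have a0 := h 0 _ t0
  have a1 := h 1 _ t1
  have a2 := h 2 _ t2
  have a3 := h 3 _ t3
  have key : ∀ (a b : Fin 4) (x : ℝ), a ≠ b → pK.α a ≤ x ∧ x ≤ pK.β a →
      pK.α b ≤ x ∧ x ≤ pK.β b → a ≠ 3 := by
    intro a b x hab h1 h2 h3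
    subst h3
    fin_cases b <;> simp [pK] at hab h1 h2 <;> linarith
  obtain ⟨k, hk⟩ := hσ.2 3
  fin_cases k
  · exact key (σ 0) (σ 1) _ (fun e => absurd (hσ.1 e) (by decide)) a0 a1 hk
  · exact key (σ 1) (σ 0) _ (fun e => absurd (hσ.1 e) (by decide)) a1 a0 hk
  · exact key (σ 2) (σ 3) _ (fun e => absurd (hσ.1 e) (by decide)) a2 a3 hk
  · exact key (σ 3) (σ 2) _ (fun e => absurd (hσ.1 e) (by decide)) a3 a2 hk

/-- `L × I` does not collapse to a copy of `K`. -/
theorem no_collapse_L : ¬ ∃ K' : Set ((Fin 3 → ℝ) × ℝ), PLHomeo (Neck pK) K' ∧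
    Collapses (Neck pL ×ˢ Icc (0 : ℝ) 1) K' := by
  rintro ⟨L', ⟨g, hg, hbij, -⟩, hcol⟩
  have hret := hcol.defRet
  have hsub : L' ⊆ Neck pL ×ˢ Icc (0 : ℝ) 1 := hret.1
  rw [← hbij.image_eq] at hret hsub
  obtain ⟨σ, hσ, h⟩ := exists_matching pL pK g (fun k => isPolyhedron_Sph (pK.ab k)) hg hbij.injOn
    (fun y hy => (hsub ⟨y, hy, rfl⟩).1) hret
  -- the touching points
  have t0 : pt (-3) ∈ Sph (pK.α 0) (pK.m 0) (pK.β 0) := by
    apply pt_mem_Sph <;> simp [pK] <;> norm_num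
  have t1 : pt (-3) ∈ Sph (pK.α 1) (pK.m 1) (pK.β 1) := by
    apply pt_mem_Sph <;> simp [pK] <;> norm_num
  have t2 : pt (-1) ∈ Sph (pK.α 1) (pK.m 1) (pK.β 1) := by
    apply pt_mem_Sph <;> simp [pK] <;> norm_num
  have t3 : pt (-1) ∈ Sph (pK.α 2) (pK.m 2) (pK.β 2) := by
    apply pt_mem_Sph <;> simp [pK] <;> norm_num
  have a0 := h 0 _ t0
  have a1 := h 1 _ t1
  have a2 := h 1 _ t2
  have a3 := h 2 _ t3
  have key : ∀ (a b c : Fin 4) (x y : ℝ), a ≠ b → b ≠ c → a ≠ c → pL.α a ≤ x ∧ x ≤ pL.β a →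
      pL.α b ≤ x ∧ x ≤ pL.β b → pL.α b ≤ y ∧ y ≤ pL.β b → pL.α c ≤ y ∧ y ≤ pL.β c → False := by
    intro a b c x y hab hbc hac h1 h2 h3 h4
    fin_cases a <;> fin_cases b <;> fin_cases c <;>
      simp [pL] at hab hbc hac h1 h2 h3 h4 <;> linarith
  exact key (σ 0) (σ 1) (σ 2) _ _ (fun e => absurd (hσ.1 e) (by decide))
    (fun e => absurd (hσ.1 e) (by decide)) (fun e => absurd (hσ.1 e) (by decide)) a0 a1 a2 a3

end Pool.Agent.Helper31.GZ
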